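import Pool.Agent.TH954.W.Basic

/-!
# Monomials in algebraically independent coordinates
-/

set_option autoImplicit false
set_option linter.unusedSectionVars false

open MvPolynomial

namespace Pool.Agent.TH954.W

theorem boxA {K : Type} [Field K] {k n g : ℕ} (z0 : Fin n) (z : Fin g → Fin n)
    (hz : Function.Injective z) (hz0 : ∀ i, z i ≠ z0) (d : Fin k → ℕ) :
    ∃ B : Finset (Fin k × Fin n →₀ ℕ), (∀ e ∈ B, ∀ l, ∑ c, e (l, c) = g * d l) ∧
      B.card = ∏ l, (d l + 1) ^ g ∧
      ∀ G : MvPolynomial (Fin k × Fin n) K, G ≠ 0 → G.support ⊆ B →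
        ∀ (Ω : Type) [Field Ω] [Algebra K Ω] (t : Fin k → Fin n → Ω), (∀ l, t l z0 ≠ 0) →
        AlgebraicIndependent K (fun p : Fin k × Fin g => t p.1 (z p.2) / t p.1 z0) →
        ev G t ≠ 0 := by
  classical
  -- the exponent attached to an element of the box
  let Box := (l : Fin k) → Fin g → Fin (d l + 1)
  let ex : Box → Fin k × Fin n → ℕ := fun a p =>
    (∑ i, if z i = p.2 then (a p.1 i : ℕ) else 0) +
      if p.2 = z0 then g * d p.1 - ∑ i, (a p.1 i : ℕ) else 0
  let toE : Box → (Fin k × Fin n →₀ ℕ) := fun a => Finsupp.equivFunOnFinite.symm (ex a)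
  have hexz : ∀ (a : Box) l i, ex a (l, z i) = a l i := by
    intro a l i
    simp only [ex]
    rw [if_neg (hz0 i), add_zero, Finset.sum_eq_single i]
    · simp
    · intro j _ hj
      rw [if_neg (fun h => hj (hz h))]
    · simp
  have hsumle : ∀ (a : Box) l, ∑ i, (a l i : ℕ) ≤ g * d l := by
    intro a l
    calc ∑ i, (a l i : ℕ) ≤ ∑ _i : Fin g, d l :=
          Finset.sum_le_sum (fun i _ => Nat.lt_succ_iff.mp (a l i).2)
      _ = g * d l := by simp
  have htoEinj : Function.Injective toE := by
    intro a b hab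
    have h1 : ex a = ex b := Finsupp.equivFunOnFinite.symm.injective hab
    funext l i
    apply Fin.ext
    rw [← hexz a l i, ← hexz b l i, h1]
  have hsum : ∀ (a : Box) l, ∑ c, ex a (l, c) = g * d l := by
    intro a l
    simp only [ex]
    rw [Finset.sum_add_distrib, Finset.sum_comm]
    have h1 : ∑ i : Fin g, ∑ c : Fin n, (if z i = c then (a l i : ℕ) else 0) =
        ∑ i, (a l i : ℕ) := by
      refine Finset.sum_congr rfl (fun i _ => ?_)
      rw [Finset.sum_ite_eq]
      simp
    rw [h1, Finset.sum_ite_eq']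
    simp only [Finset.mem_univ, if_true]
    have := hsumle a l
    omega
  refine ⟨Finset.univ.image toE, ?_, ?_, ?_⟩
  · intro e he l
    obtain ⟨a, -, rfl⟩ := Finset.mem_image.mp he
    exact hsum a l
  · rw [Finset.card_image_of_injective _ htoEinj, Finset.card_univ]
    simp only [Box, Fintype.card_pi, Fintype.card_fin, Finset.prod_const, Finset.card_univ]
  · intro G hG0 hGs Ω _ _ t ht hind
    -- the polynomial in the ratios
    let toH : Box → (Fin k × Fin g →₀ ℕ) := fun a =>
      Finsupp.equivFunOnFinite.symm (fun p => (a p.1 p.2 : ℕ))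
    have htoHinj : Function.Injective toH := by
      intro a b hab
      have h1 := Finsupp.equivFunOnFinite.symm.injective hab
      funext l i
      apply Fin.ext
      exact congrFun h1 (l, i)
    set H : MvPolynomial (Fin k × Fin g) K :=
      ∑ a : Box, coeff (toE a) G • monomial (toH a) (1 : K) with hH
    have hcoeff : ∀ a : Box, coeff (toH a) H = coeff (toE a) G := by
      intro a
      rw [hH, coeff_sum, Finset.sum_eq_single a]
      · rw [coeff_smul, coeff_monomial, if_pos rfl, smul_eq_mul, mul_one]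
      · intro b _ hne
        rw [coeff_smul, coeff_monomial, if_neg (fun h => hne (htoHinj h)), smul_zero]
      · intro h
        exact absurd (Finset.mem_univ _) h
    have hH0 : H ≠ 0 := by
      intro h0
      obtain ⟨e, he⟩ := MvPolynomial.support_nonempty.mpr hG0
      obtain ⟨a, -, rfl⟩ := Finset.mem_image.mp (hGs he)
      rw [mem_support_iff, ← hcoeff a, h0, coeff_zero] at he
      exact he rfl
    have hmon : ∀ a : Box, ∏ p, t p.1 p.2 ^ (toE a) p =
        (∏ l, t l z0 ^ (g * d l)) *
          ∏ p : Fin k × Fin g, (t p.1 (z p.2) / t p.1 z0) ^ (toH a) p := by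
      intro a
      change ∏ p : Fin k × Fin n, t p.1 p.2 ^ ex a p = (∏ l, t l z0 ^ (g * d l)) *
        ∏ p : Fin k × Fin g, (t p.1 (z p.2) / t p.1 z0) ^ (a p.1 p.2 : ℕ)
      rw [Fintype.prod_prod_type, Fintype.prod_prod_type, ← Finset.prod_mul_distrib]
      refine Finset.prod_congr rfl (fun l _ => ?_)
      simp only [ex]
      simp_rw [pow_add]
      rw [Finset.prod_mul_distrib]
      have h1 : ∏ c : Fin n, t l c ^ (∑ i, if z i = c then (a l i : ℕ) else 0) =
          ∏ i, t l (z i) ^ (a l i : ℕ) := by
        simp_rw [← Finset.prod_pow_eq_pow_sum]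
        rw [Finset.prod_comm]
        refine Finset.prod_congr rfl (fun i _ => ?_)
        rw [Finset.prod_eq_single (z i)]
        · simp
        · intro c _ hc
          rw [if_neg (Ne.symm hc), pow_zero]
        · simp
      have h2 : ∏ c : Fin n, t l c ^ (if c = z0 then g * d l - ∑ i, (a l i : ℕ) else 0) =
          t l z0 ^ (g * d l - ∑ i, (a l i : ℕ)) := by
        rw [Finset.prod_eq_single z0]
        · simp
        · intro c _ hc
          rw [if_neg hc, pow_zero]
        · simp
      rw [h1, h2]
      simp_rw [div_pow]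
      rw [Finset.prod_div_distrib, Finset.prod_pow_eq_pow_sum]
      have h3 : t l z0 ^ (g * d l) = t l z0 ^ (g * d l - ∑ i, (a l i : ℕ)) *
          t l z0 ^ (∑ i, (a l i : ℕ)) := by
        rw [← pow_add]
        congr 1
        have := hsumle a l
        omega
      rw [h3]
      have h4 : t l z0 ^ (∑ i, (a l i : ℕ)) ≠ 0 := pow_ne_zero _ (ht l)
      field_simp
    have hevG : ev G t = (∏ l, t l z0 ^ (g * d l)) *
        aeval (fun p : Fin k × Fin g => t p.1 (z p.2) / t p.1 z0) H := by
      rw [ev_expand]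
      rw [Finset.sum_subset hGs (fun e _ he => by
        rw [notMem_support_iff.mp he, map_zero, zero_mul])]
      rw [Finset.sum_image (fun a _ b _ h => htoEinj h), hH, map_sum, Finset.mul_sum]
      refine Finset.sum_congr rfl (fun a _ => ?_)
      rw [hmon a, map_smul, aeval_monomial, map_one, one_mul, Algebra.smul_def]
      rw [Finsupp.prod_fintype _ _ (fun _ => pow_zero _)]
      ring
    rw [hevG]
    refine mul_ne_zero (Finset.prod_ne_zero_iff.mpr (fun l _ => pow_ne_zero _ (ht l))) ?_
    intro h0
    exact hH0 ((injective_iff_map_eq_zero _).mp hind H h0)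

/-- consequences of the algebraic independence of the ratios -/
lemma z_inj {K : Type} [Field K] {k n g : ℕ} (hk : 0 < k) (z0 : Fin n) (z : Fin g → Fin n)
    (Ω : Type) [Field Ω] [Algebra K Ω] (t : Fin k → Fin n → Ω) (ht : ∀ l, t l z0 ≠ 0)
    (hind : AlgebraicIndependent K (fun p : Fin k × Fin g => t p.1 (z p.2) / t p.1 z0)) :
    Function.Injective z ∧ ∀ i, z i ≠ z0 := by
  have hinj := hind.injective
  refine ⟨fun i j hij => ?_, fun i hi => ?_⟩
  · have h1 : ((⟨0, hk⟩ : Fin k), i) = ((⟨0, hk⟩ : Fin k), j) := hinj (by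
      simp only [hij])
    exact (Prod.ext_iff.mp h1).2
  · have h2 := hind.ne_zero
    have h1 : t ⟨0, hk⟩ (z i) / t ⟨0, hk⟩ z0 = 1 := by
      rw [hi]
      exact div_self (ht _)
    have h3 : (X ((⟨0, hk⟩ : Fin k), i) - 1 : MvPolynomial (Fin k × Fin g) K) = 0 := by
      apply (injective_iff_map_eq_zero _).mp hind
      rw [map_sub, aeval_X, map_one]
      simp only
      rw [h1, sub_self]
    have h4 := congrArg (eval (fun _ => (0 : K))) h3
    rw [map_sub, eval_X, map_one, map_zero, zero_sub] at h4
    exact one_ne_zero (neg_eq_zero.mp h4)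

end Pool.Agent.TH954.W
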