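import Mathlib

/-!
# Projective algebraic groups given by equations and by forms for the sum and the difference:
definitions and targets
-/

set_option autoImplicit false

open MvPolynomial

namespace Pool.Agent.TH954.W

/-- multihomogeneous of multidegree `d` in `k` groups of `n` variables -/
def MH {K : Type} [Field K] {k n : ℕ} (d : Fin k → ℕ) (f : MvPolynomial (Fin k × Fin n) K) :
    Prop :=
  ∀ m ∈ f.support, ∀ j, ∑ c, m (j, c) = d j

/-- value at a `k`-tuple of vectors over an extension field -/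
noncomputable def ev {K F : Type} [Field K] [Field F] [Algebra K F] {k n : ℕ}
    (f : MvPolynomial (Fin k × Fin n) K) (u : Fin k → Fin n → F) : F :=
  aeval (fun p : Fin k × Fin n => u p.1 p.2) f

/-- normalised coordinates of a point of projective space: the first nonzero coordinate is one -/
def Normed {F : Type} [Field F] {n : ℕ} (v : Fin n → F) : Prop :=
  ∃ i, v i = 1 ∧ ∀ j, j < i → v j = 0

/-- the points over `F` of the closed subset of projective space defined by `eqn` -/
abbrev PtE {K : Type} [Field K] {n e : ℕ} (eqn : Fin e → MvPolynomial (Fin n) K)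
    (F : Type) [Field F] [Algebra K F] : Type :=
  {v : Fin n → F // Normed v ∧ ∀ i, aeval v (eqn i) = 0}

/-- An abelian variety over `K` in projective space `ℙ ^ (n - 1)`: homogeneous equations, the group
structures on the sets of points over the extension fields, a matrix `Λ` of forms of bidegree
`(2, 2)` with `Λ i j (P, Q) = s (P + Q)_i (P - Q)_j`, `s ≠ 0`; the points over algebraically closed
fields form a divisible group; all powers are irreducible: they have generic points (where no form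
vanishes unless it vanishes identically), at which, moreover, the quotients by the coordinate `z0`
of the coordinates `z`, `dim` in number, are algebraically independent. -/
structure AbVar (K : Type) [Field K] where
  n : ℕ
  e : ℕ
  eqn : Fin e → MvPolynomial (Fin n) K
  deg : Fin e → ℕ
  hom : ∀ i, (eqn i).IsHomogeneous (deg i)
  grp : ∀ (F : Type) [Field F] [Algebra K F], AddCommGroup (PtE eqn F)
  Λ : Fin n → Fin n → MvPolynomial (Fin 2 × Fin n) K
  Λ_hom : ∀ i j, MH (fun _ => 2) (Λ i j)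
  Λ_spec : ∀ (F : Type) [Field F] [Algebra K F] (P Q : PtE eqn F), ∃ s : F, s ≠ 0 ∧
    ∀ i j, ev (Λ i j) ![P.1, Q.1] = s * (((grp F).add P Q).1 i * ((grp F).sub P Q).1 j)
  div : ∀ (F : Type) [Field F] [Algebra K F] [IsAlgClosed F] (P : PtE eqn F) (m : ℕ), 0 < m →
    ∃ Q : PtE eqn F, (grp F).nsmul m Q = P
  dim : ℕ
  z0 : Fin n
  z : Fin dim → Fin n
  gen : ∀ k : ℕ, ∃ (Ω : Type) (_ : Field Ω) (_ : Algebra K Ω) (_ : IsAlgClosed Ω)
    (P : Fin k → PtE eqn Ω), (∀ j, (P j).1 z0 ≠ 0) ∧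
    AlgebraicIndependent K (fun p : Fin k × Fin dim => (P p.1).1 (z p.2) / (P p.1).1 z0) ∧
    ∀ (Φ : MvPolynomial (Fin k × Fin n) K) (τ : Fin k → ℕ), MH τ Φ →
      (∃ (F : Type) (_ : Field F) (_ : Algebra K F) (Q : Fin k → PtE eqn F),
        ev Φ (fun j => (Q j).1) ≠ 0) → ev Φ (fun j => (P j).1) ≠ 0

/-- the points of an abelian variety over an extension field -/
abbrev AbVar.Pt {K : Type} [Field K] (A : AbVar K) (F : Type) [Field F] [Algebra K F] : Type :=
  PtE A.eqn F

instance {K : Type} [Field K] (A : AbVar K) (F : Type) [Field F] [Algebra K F] :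
    AddCommGroup (A.Pt F) := A.grp F

/-- a finite family of `n`-tuples of forms of multidegree `(D, ..., D)` representing the map
`(P_1, ..., P_k) ↦ n_1 P_1 + ... + n_k P_k`, without common zero on `A ^ k` over any field -/
def RepA {K : Type} [Field K] (A : AbVar K) (k : ℕ) (n : Fin k → ℤ) (D : ℕ) : Prop :=
  ∃ Fam : Finset (Fin A.n → MvPolynomial (Fin k × Fin A.n) K),
    (∀ C ∈ Fam, ∀ c, MH (fun _ => D) (C c)) ∧
    ∀ (F : Type) [Field F] [Algebra K F] (P : Fin k → A.Pt F),
      (∀ C ∈ Fam, ∃ s : F, (fun c => ev (C c) (fun j => (P j).1)) = s • (∑ j, n j • P j).1) ∧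
      ∃ C ∈ Fam, ∃ c, ev (C c) (fun j => (P j).1) ≠ 0

/-- such families exist with `D` bounded by a multiple of `1 + ∑ n_j ^ 2` -/
def T_famA : Prop := ∀ (K : Type) [Field K] (A : AbVar K) (k : ℕ), ∃ c : ℕ, ∀ n : Fin k → ℤ,
    ∃ D : ℕ, 1 ≤ D ∧ (D : ℤ) ≤ c * (1 + ∑ j, n j ^ 2) ∧ RepA A k n D

/-- geometry of numbers -/
def T_latA : Prop := ∀ (r k g y : ℕ), y + r * g < k * g → ∀ c0 : ℝ, 1 ≤ c0 → ∀ ε : ℝ, 0 < ε →
    ∃ (H : ℤ) (T : ℕ), ∀ (n : Fin r → Fin k → ℝ) (M : ℝ), 1 ≤ M → (∀ l j, |n l j| ≤ M) →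
      ∃ u : Fin k → Fin k → ℤ, LinearIndependent ℤ u ∧ (∀ i j, |u i j| ≤ H) ∧
      ∃ d : Fin k → ℕ, (∀ i, d i ≤ T) ∧
        c0 * (1 + ∑ l, (d l : ℝ) * ∑ t, (u l t : ℝ) ^ 2) ^ y < ∏ l, ((d l : ℝ) + 1) ^ g ∧
        ∑ l, (d l : ℝ) * ∑ i, (∑ t, (u l t : ℝ) * n i t) ^ 2 ≤ ε * M ^ 2

/-- solving linear systems in the group of points over an algebraically closed field -/
def T_solve : Prop := ∀ (K : Type) [Field K] (A : AbVar K) (Ω : Type) [Field Ω] [Algebra K Ω]
    [IsAlgClosed Ω] (k : ℕ) (u : Fin k → Fin k → ℤ), LinearIndependent ℤ u →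
    ∀ P : Fin k → A.Pt Ω, ∃ Q : Fin k → A.Pt Ω, ∀ l, ∑ j, u l j • Q j = P l

end Pool.Agent.TH954.W
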