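import Pool.Agent.TH954.W.Defs

/-!
# Families of forms representing linear combinations of points of abelian varieties (job 2465)
-/

set_option autoImplicit false
set_option linter.unusedSectionVars false

open MvPolynomial

namespace Pool.Agent.TH954.W.FamA

section hom

variable {K : Type} [Field K] {k n : ℕ}

/-- the weights of the `i`-th group -/
def wt (k n : ℕ) (i : Fin k) : Fin k × Fin n → ℕ := fun p => if p.1 = i then 1 else 0

lemma weight_wt (i : Fin k) (m : Fin k × Fin n →₀ ℕ) :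
    Finsupp.weight (wt k n i) m = ∑ j, m (i, j) := by
  rw [Finsupp.weight_apply, Finsupp.sum_fintype _ _ (by simp), Fintype.sum_prod_type]
  simp only [wt, smul_eq_mul, mul_ite, mul_one, mul_zero]
  rw [Finset.sum_eq_single i]
  · simp
  · intro l _ hl
    simp [hl]
  · simp

lemma mh_iff {d : Fin k → ℕ} {f : MvPolynomial (Fin k × Fin n) K} :
    MH d f ↔ ∀ i, IsWeightedHomogeneous (wt k n i) f (d i) := by
  constructor
  · intro h i m hm
    rw [weight_wt]
    exact h m (by rwa [mem_support_iff]) i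
  · intro h m hm i
    rw [← weight_wt]
    exact h i (by rwa [mem_support_iff] at hm)

end hom

section subst

variable {K : Type} [Field K] {k n : ℕ}

/-- substitution of two tuples of forms -/
noncomputable def sb (f : MvPolynomial (Fin 2 × Fin n) K)
    (p q : Fin n → MvPolynomial (Fin k × Fin n) K) : MvPolynomial (Fin k × Fin n) K :=
  bind₁ (fun t : Fin 2 × Fin n => (![p, q] : Fin 2 → Fin n → _) t.1 t.2) f

lemma sb_hom {f : MvPolynomial (Fin 2 × Fin n) K} (hf : MH (fun _ => 2) f)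
    {p q : Fin n → MvPolynomial (Fin k × Fin n) K} {d e : ℕ}
    (hp : ∀ c, MH (fun _ => d) (p c)) (hq : ∀ c, MH (fun _ => e) (q c)) :
    MH (fun _ => 2 * d + 2 * e) (sb f p q) := by
  rw [mh_iff]
  intro i
  unfold sb
  rw [← aeval_eq_bind₁, aeval_def, eval₂_eq]
  apply IsWeightedHomogeneous.sum
  intro m hm
  have h2 := hf m hm
  have h3 : IsWeightedHomogeneous (wt k n i)
      (∏ t ∈ m.support, ((![p, q] : Fin 2 → Fin n → MvPolynomial (Fin k × Fin n) K) t.1 t.2) ^ m t)
      (∑ t ∈ m.support, m t • ((![d, e] : Fin 2 → ℕ) t.1)) := by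
    apply IsWeightedHomogeneous.prod
    rintro ⟨t1, t2⟩ _
    apply IsWeightedHomogeneous.pow
    fin_cases t1
    · exact mh_iff.mp (hp t2) i
    · exact mh_iff.mp (hq t2) i
  have h4 : (∑ t ∈ m.support, m t • ((![d, e] : Fin 2 → ℕ) t.1)) = 2 * d + 2 * e := by
    have h5 : (∑ t ∈ m.support, m t • ((![d, e] : Fin 2 → ℕ) t.1)) =
        ∑ t, m t • ((![d, e] : Fin 2 → ℕ) t.1) := by
      apply Finset.sum_subset (Finset.subset_univ _)
      intro t _ ht
      rw [Finsupp.notMem_support_iff] at ht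
      rw [ht, zero_smul]
    rw [h5, Fintype.sum_prod_type, Fin.sum_univ_two]
    simp only [Matrix.cons_val_zero, Matrix.cons_val_one, smul_eq_mul]
    rw [← Finset.sum_mul, ← Finset.sum_mul, h2 0, h2 1]
  rw [h4] at h3
  have h6 := (isWeightedHomogeneous_C (wt k n i) (coeff m f)).mul h3
  rw [zero_add] at h6
  exact h6

variable {F : Type} [Field F] [Algebra K F]

lemma ev_sb (f : MvPolynomial (Fin 2 × Fin n) K)
    (p q : Fin n → MvPolynomial (Fin k × Fin n) K) (u : Fin k → Fin n → F) :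
    ev (sb f p q) u = ev f ![fun c => ev (p c) u, fun c => ev (q c) u] := by
  unfold ev sb
  rw [aeval_bind₁]
  congr 2
  funext t
  obtain ⟨t1, t2⟩ := t
  fin_cases t1
  · rfl
  · rfl

lemma ev_smul {f : MvPolynomial (Fin 2 × Fin n) K} (hf : MH (fun _ => 2) f) (s t : F)
    (u v : Fin n → F) : ev f ![s • u, t • v] = s ^ 2 * t ^ 2 * ev f ![u, v] := by
  unfold ev
  rw [aeval_def, eval₂_eq, aeval_def, eval₂_eq, Finset.mul_sum]
  apply Finset.sum_congr rfl
  intro m hm
  have h2 := hf m hm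
  have h3 : ∏ i ∈ m.support, ((![s • u, t • v] : Fin 2 → Fin n → F) i.1 i.2) ^ m i =
      s ^ 2 * t ^ 2 * ∏ i ∈ m.support, ((![u, v] : Fin 2 → Fin n → F) i.1 i.2) ^ m i := by
    have e1 : ∀ w : Fin 2 → Fin n → F, ∏ i ∈ m.support, (w i.1 i.2) ^ m i =
        ∏ i, (w i.1 i.2) ^ m i := by
      intro w
      apply Finset.prod_subset (Finset.subset_univ _)
      intro i _ hi
      rw [Finsupp.notMem_support_iff] at hi
      rw [hi, pow_zero]
    rw [e1, e1, Fintype.prod_prod_type, Fintype.prod_prod_type, Fin.prod_univ_two,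
      Fin.prod_univ_two]
    simp only [Matrix.cons_val_zero, Matrix.cons_val_one, Pi.smul_apply, smul_eq_mul, mul_pow]
    rw [Finset.prod_mul_distrib, Finset.prod_mul_distrib, Finset.prod_pow_eq_pow_sum,
      Finset.prod_pow_eq_pow_sum, h2 0, h2 1]
    ring
  rw [h3]
  ring

lemma ev_C (u : Fin k → Fin n → F) (x : K) :
    ev (C x : MvPolynomial (Fin k × Fin n) K) u = algebraMap K F x := by
  simp [ev]

lemma ev_X (u : Fin k → Fin n → F) (p : Fin k × Fin n) :
    ev (X p : MvPolynomial (Fin k × Fin n) K) u = u p.1 p.2 := by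
  simp [ev]

lemma ev_mul (f g : MvPolynomial (Fin k × Fin n) K) (u : Fin k → Fin n → F) :
    ev (f * g) u = ev f u * ev g u := by
  simp [ev]

lemma ev_prod {ι : Type} (s : Finset ι) (f : ι → MvPolynomial (Fin k × Fin n) K)
    (u : Fin k → Fin n → F) : ev (∏ i ∈ s, f i) u = ∏ i ∈ s, ev (f i) u := by
  simp [ev]

lemma ev_pow (f : MvPolynomial (Fin k × Fin n) K) (d : ℕ) (u : Fin k → Fin n → F) :
    ev (f ^ d) u = ev f u ^ d := by
  simp [ev]

end subst

section rep

variable {K : Type} [Field K] {A : AbVar K} {k : ℕ}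

lemma ex_ne {F : Type} [Field F] [Algebra K F] (P : A.Pt F) : ∃ c, P.1 c ≠ 0 := by
  obtain ⟨i, hi, _⟩ := P.2.1
  exact ⟨i, by rw [hi]; exact one_ne_zero⟩

lemma spec' {F : Type} [Field F] [Algebra K F] (P Q : A.Pt F) : ∃ s : F, s ≠ 0 ∧
    ∀ i j, ev (A.Λ i j) ![P.1, Q.1] = s * ((P + Q).1 i * (P - Q).1 j) :=
  A.Λ_spec F P Q

/-- the common part of sum and difference -/
theorem rep_core {n n' : Fin k → ℤ} {D D' : ℕ} (h : RepA A k n D) (h' : RepA A k n' D') :
    RepA A k (n + n') (2 * D + 2 * D') ∧ RepA A k (n - n') (2 * D + 2 * D') := by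
  classical
  obtain ⟨Fam, hF1, hF2⟩ := h
  obtain ⟨Fam', hF1', hF2'⟩ := h'
  have hev : ∀ (F : Type) [Field F] [Algebra K F] (P : Fin k → A.Pt F), ∃ r : F, r ≠ 0 ∧
      (∀ p ∈ Fam, ∀ q ∈ Fam', ∃ s t : F, ∀ i j, ev (sb (A.Λ i j) p q) (fun j => (P j).1) =
        s ^ 2 * t ^ 2 * (r * ((∑ j, (n + n') j • P j).1 i * (∑ j, (n - n') j • P j).1 j))) ∧
      ∃ p ∈ Fam, ∃ q ∈ Fam', ∃ s t : F, s ≠ 0 ∧ t ≠ 0 ∧
        ∀ i j, ev (sb (A.Λ i j) p q) (fun j => (P j).1) =
        s ^ 2 * t ^ 2 * (r * ((∑ j, (n + n') j • P j).1 i * (∑ j, (n - n') j • P j).1 j)) := by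
    intro F _ _ P
    obtain ⟨g1, C, hC, c, hc⟩ := hF2 F P
    obtain ⟨g1', C', hC', c', hc'⟩ := hF2' F P
    have hsum : ∑ j, (n + n') j • P j = ∑ j, n j • P j + ∑ j, n' j • P j := by
      rw [← Finset.sum_add_distrib]
      exact Finset.sum_congr rfl (fun j _ => by rw [Pi.add_apply, add_zsmul])
    have hdif : ∑ j, (n - n') j • P j = ∑ j, n j • P j - ∑ j, n' j • P j := by
      rw [← Finset.sum_sub_distrib]
      exact Finset.sum_congr rfl (fun j _ => by rw [Pi.sub_apply, sub_zsmul, sub_eq_add_neg])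
    obtain ⟨r, hr, hspec⟩ := spec' (∑ j, n j • P j) (∑ j, n' j • P j)
    have key : ∀ (p q : Fin A.n → MvPolynomial (Fin k × Fin A.n) K) (s t : F),
        (fun c => ev (p c) (fun j => (P j).1)) = s • (∑ j, n j • P j).1 →
        (fun c => ev (q c) (fun j => (P j).1)) = t • (∑ j, n' j • P j).1 →
        ∀ i j, ev (sb (A.Λ i j) p q) (fun j => (P j).1) =
        s ^ 2 * t ^ 2 * (r * ((∑ j, (n + n') j • P j).1 i * (∑ j, (n - n') j • P j).1 j)) := by
      intro p q s t hs ht i j
      rw [ev_sb, hs, ht, ev_smul (A.Λ_hom i j), hspec, hsum, hdif]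
    refine ⟨r, hr, ?_, C, hC, C', hC', ?_⟩
    · intro p hp q hq
      obtain ⟨s, hs⟩ := g1 p hp
      obtain ⟨t, ht⟩ := g1' q hq
      exact ⟨s, t, key p q s t hs ht⟩
    · obtain ⟨s, hs⟩ := g1 C hC
      obtain ⟨t, ht⟩ := g1' C' hC'
      refine ⟨s, t, ?_, ?_, key C C' s t hs ht⟩
      · rintro rfl
        apply hc
        have := congrFun hs c
        simpa using this
      · rintro rfl
        apply hc'
        have := congrFun ht c'
        simpa using this
  constructor
  · refine ⟨(Finset.univ ×ˢ (Fam ×ˢ Fam')).image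
      (fun x : Fin A.n × _ × _ => fun i => sb (A.Λ i x.1) x.2.1 x.2.2), ?_, ?_⟩
    · intro C hC c
      rw [Finset.mem_image] at hC
      obtain ⟨⟨j, p, q⟩, hx, rfl⟩ := hC
      simp only [Finset.mem_product, Finset.mem_univ, true_and] at hx
      exact sb_hom (A.Λ_hom c j) (hF1 p hx.1) (hF1' q hx.2)
    · intro F _ _ P
      obtain ⟨r, hr, h1, C, hC, C', hC', s, t, hs, ht, h2⟩ := hev F P
      constructor
      · intro T hT
        rw [Finset.mem_image] at hT
        obtain ⟨⟨j, p, q⟩, hx, rfl⟩ := hT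
        simp only [Finset.mem_product, Finset.mem_univ, true_and] at hx
        obtain ⟨s, t, h3⟩ := h1 p hx.1 q hx.2
        refine ⟨s ^ 2 * t ^ 2 * (r * (∑ j, (n - n') j • P j).1 j), ?_⟩
        funext i
        simp only [Pi.smul_apply, smul_eq_mul]
        rw [h3]
        ring
      · obtain ⟨i, hi⟩ := ex_ne (∑ j, (n + n') j • P j)
        obtain ⟨j, hj⟩ := ex_ne (∑ j, (n - n') j • P j)
        refine ⟨_, Finset.mem_image.mpr ⟨(j, C, C'), by simp [hC, hC'], rfl⟩, i, ?_⟩
        simp only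
        rw [h2]
        exact mul_ne_zero (mul_ne_zero (pow_ne_zero _ hs) (pow_ne_zero _ ht))
          (mul_ne_zero hr (mul_ne_zero hi hj))
  · refine ⟨(Finset.univ ×ˢ (Fam ×ˢ Fam')).image
      (fun x : Fin A.n × _ × _ => fun j => sb (A.Λ x.1 j) x.2.1 x.2.2), ?_, ?_⟩
    · intro C hC c
      rw [Finset.mem_image] at hC
      obtain ⟨⟨i, p, q⟩, hx, rfl⟩ := hC
      simp only [Finset.mem_product, Finset.mem_univ, true_and] at hx
      exact sb_hom (A.Λ_hom i c) (hF1 p hx.1) (hF1' q hx.2)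
    · intro F _ _ P
      obtain ⟨r, hr, h1, C, hC, C', hC', s, t, hs, ht, h2⟩ := hev F P
      constructor
      · intro T hT
        rw [Finset.mem_image] at hT
        obtain ⟨⟨i, p, q⟩, hx, rfl⟩ := hT
        simp only [Finset.mem_product, Finset.mem_univ, true_and] at hx
        obtain ⟨s, t, h3⟩ := h1 p hx.1 q hx.2
        refine ⟨s ^ 2 * t ^ 2 * (r * (∑ j, (n + n') j • P j).1 i), ?_⟩
        funext j
        simp only [Pi.smul_apply, smul_eq_mul]
        rw [h3]
        ring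
      · obtain ⟨i, hi⟩ := ex_ne (∑ j, (n + n') j • P j)
        obtain ⟨j, hj⟩ := ex_ne (∑ j, (n - n') j • P j)
        refine ⟨_, Finset.mem_image.mpr ⟨(i, C, C'), by simp [hC, hC'], rfl⟩, j, ?_⟩
        simp only
        rw [h2]
        exact mul_ne_zero (mul_ne_zero (pow_ne_zero _ hs) (pow_ne_zero _ ht))
          (mul_ne_zero hr (mul_ne_zero hi hj))

theorem rep_add {n n' : Fin k → ℤ} {D D' : ℕ} (h : RepA A k n D) (h' : RepA A k n' D') :
    RepA A k (n + n') (2 * D + 2 * D') := (rep_core h h').1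

theorem rep_sub {n n' : Fin k → ℤ} {D D' : ℕ} (h : RepA A k n D) (h' : RepA A k n' D') :
    RepA A k (n - n') (2 * D + 2 * D') := (rep_core h h').2

lemma mh_X {n : ℕ} (l : Fin k) (c : Fin n) (i : Fin k) :
    IsWeightedHomogeneous (wt k n i) (X (l, c) : MvPolynomial (Fin k × Fin n) K)
      (if l = i then 1 else 0) := by
  have := isWeightedHomogeneous_X K (wt k n i) (l, c)
  exact this

theorem rep_single (j : Fin k) : RepA A k (Pi.single j 1) 1 := by
  classical
  refine ⟨(Finset.univ : Finset (Fin k → Fin A.n)).image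
    (fun c t => X (j, t) * ∏ l ∈ Finset.univ.erase j, X (l, c l)), ?_, ?_⟩
  · intro C hC t
    rw [Finset.mem_image] at hC
    obtain ⟨c, _, rfl⟩ := hC
    rw [mh_iff]
    intro i
    have h1 : IsWeightedHomogeneous (wt k A.n i)
        (∏ l ∈ Finset.univ.erase j, (X (l, c l) : MvPolynomial (Fin k × Fin A.n) K))
        (∑ l ∈ Finset.univ.erase j, if l = i then 1 else 0) :=
      IsWeightedHomogeneous.prod _ _ _ (fun l _ => mh_X l (c l) i)
    have h2 := (mh_X (K := K) j t i).mul h1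
    have h3 : (if j = i then 1 else 0) + (∑ l ∈ Finset.univ.erase j, if l = i then 1 else 0) =
        1 := by
      rw [Finset.add_sum_erase _ (fun l => if l = i then 1 else 0) (Finset.mem_univ j)]
      simp
    rw [h3] at h2
    exact h2
  · intro F _ _ P
    have hsum : ∑ l, (Pi.single j 1 : Fin k → ℤ) l • P l = P j := by
      rw [Finset.sum_eq_single j]
      · simp
      · intro l _ hl
        simp [hl]
      · simp
    have hev : ∀ (c : Fin k → Fin A.n) (t : Fin A.n),
        ev (X (j, t) * ∏ l ∈ Finset.univ.erase j, X (l, c l) :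
          MvPolynomial (Fin k × Fin A.n) K) (fun j => (P j).1) =
        (∏ l ∈ Finset.univ.erase j, (P l).1 (c l)) * (P j).1 t := by
      intro c t
      rw [ev_mul, ev_prod, ev_X, mul_comm]
      simp only [ev_X]
    rw [hsum]
    constructor
    · intro T hT
      rw [Finset.mem_image] at hT
      obtain ⟨c, _, rfl⟩ := hT
      refine ⟨∏ l ∈ Finset.univ.erase j, (P l).1 (c l), ?_⟩
      funext t
      exact hev c t
    · choose c hc using fun l => ex_ne (P l)
      refine ⟨_, Finset.mem_image_of_mem _ (Finset.mem_univ c), c j, ?_⟩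
      rw [hev]
      exact mul_ne_zero (Finset.prod_ne_zero_iff.mpr (fun l _ => hc l)) (hc j)

/-- base change of a rational point -/
def bc {F : Type} [Field F] [Algebra K F] (P : A.Pt K) : A.Pt F :=
  ⟨fun i => algebraMap K F (P.1 i), by
    obtain ⟨i, h1, h2⟩ := P.2.1
    refine ⟨⟨i, ?_, fun j hj => ?_⟩, fun i => ?_⟩
    · change algebraMap K F (P.1 i) = 1
      rw [h1, map_one]
    · change algebraMap K F (P.1 j) = 0
      rw [h2 j hj, map_zero]
    · have h3 := P.2.2 i
      have h4 : aeval (fun i => algebraMap K F (P.1 i)) (A.eqn i) =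
          algebraMap K F (aeval P.1 (A.eqn i)) := aeval_algebraMap_apply F P.1 (A.eqn i)
      rw [h4, h3, map_zero]⟩

theorem rep_zero (D : ℕ) : RepA A k 0 D := by
  classical
  refine ⟨(Finset.univ : Finset (Fin A.n × (Fin k → Fin A.n))).image
    (fun x j => C (ev (A.Λ x.1 j) ![(0 : A.Pt K).1, (0 : A.Pt K).1]) * ∏ l, X (l, x.2 l) ^ D),
    ?_, ?_⟩
  · intro T hT t
    rw [Finset.mem_image] at hT
    obtain ⟨⟨i0, c⟩, _, rfl⟩ := hT
    rw [mh_iff]
    intro i
    have h1 : IsWeightedHomogeneous (wt k A.n i)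
        (∏ l, (X (l, c l) : MvPolynomial (Fin k × Fin A.n) K) ^ D)
        (∑ l, D • (if l = i then 1 else 0)) :=
      IsWeightedHomogeneous.prod _ _ _ (fun l _ => (mh_X l (c l) i).pow D)
    have h3 : (∑ l : Fin k, D • (if l = i then 1 else 0)) = D := by
      simp
    rw [h3] at h1
    have h4 := (isWeightedHomogeneous_C (wt k A.n i)
      (ev (A.Λ i0 t) ![(0 : A.Pt K).1, (0 : A.Pt K).1])).mul h1
    rw [zero_add] at h4
    exact h4
  · intro F _ _ P
    have hsum : ∑ l, (0 : Fin k → ℤ) l • P l = 0 := by simp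
    obtain ⟨r, hr, hspec⟩ := spec' (bc (F := F) (0 : A.Pt K)) (bc (F := F) (0 : A.Pt K))
    rw [sub_self] at hspec
    have hΛ : ∀ i j, algebraMap K F (ev (A.Λ i j) ![(0 : A.Pt K).1, (0 : A.Pt K).1]) =
        r * ((bc (F := F) (0 : A.Pt K) + bc (F := F) (0 : A.Pt K)).1 i * (0 : A.Pt F).1 j) := by
      intro i j
      rw [← hspec i j]
      unfold ev
      rw [← aeval_algebraMap_apply]
      congr 2
      funext t
      obtain ⟨t1, t2⟩ := t
      fin_cases t1
      · rfl
      · rfl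
    have hev : ∀ (i : Fin A.n) (c : Fin k → Fin A.n) (j : Fin A.n),
        ev (C (ev (A.Λ i j) ![(0 : A.Pt K).1, (0 : A.Pt K).1]) * ∏ l, X (l, c l) ^ D :
          MvPolynomial (Fin k × Fin A.n) K) (fun j => (P j).1) =
        r * (bc (F := F) (0 : A.Pt K) + bc (F := F) (0 : A.Pt K)).1 i *
          (∏ l, (P l).1 (c l) ^ D) * (0 : A.Pt F).1 j := by
      intro i c j
      rw [ev_mul, ev_C, ev_prod, hΛ]
      simp only [ev_pow, ev_X]
      ring
    rw [hsum]
    constructor
    · intro T hT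
      rw [Finset.mem_image] at hT
      obtain ⟨⟨i, c⟩, _, rfl⟩ := hT
      refine ⟨r * (bc (F := F) (0 : A.Pt K) + bc (F := F) (0 : A.Pt K)).1 i *
          (∏ l, (P l).1 (c l) ^ D), ?_⟩
      funext t
      exact hev i c t
    · choose c hc using fun l => ex_ne (P l)
      obtain ⟨i, hi⟩ := ex_ne (bc (F := F) (0 : A.Pt K) + bc (F := F) (0 : A.Pt K))
      obtain ⟨j, hj⟩ := ex_ne (0 : A.Pt F)
      refine ⟨_, Finset.mem_image_of_mem _ (Finset.mem_univ (i, c)), j, ?_⟩
      rw [hev]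
      exact mul_ne_zero (mul_ne_zero (mul_ne_zero hr hi)
        (Finset.prod_ne_zero_iff.mpr (fun l _ => pow_ne_zero _ (hc l)))) hj

theorem rep_nat (j : Fin k) :
    ∀ N : ℕ, 1 ≤ N → ∃ D : ℕ, 1 ≤ D ∧ 2 * D + 1 ≤ 3 * N ^ 2 ∧
      RepA A k (Pi.single j (N : ℤ)) D := by
  intro N
  induction N using Nat.strong_induction_on with
  | _ N ih =>
    intro hN
    rcases Nat.lt_or_ge N 2 with h2 | h2
    · have : N = 1 := by omega
      subst this
      exact ⟨1, le_rfl, by norm_num, by simpa using rep_single j⟩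
    · obtain ⟨M, hM⟩ := Nat.even_or_odd' N
      rcases hM with hM | hM
      · obtain ⟨D, h1, h3, h4⟩ := ih M (by omega) (by omega)
        refine ⟨2 * D + 2 * D, by omega, ?_, ?_⟩
        · rw [hM]; nlinarith
        · have := rep_add h4 h4
          rw [← Pi.single_add] at this
          have e : ((M : ℤ) + M) = (N : ℤ) := by rw [hM]; push_cast; ring
          rwa [e] at this
      · obtain ⟨D, h1, h3, h4⟩ := ih M (by omega) (by omega)
        obtain ⟨D', h1', h3', h4'⟩ := ih (M + 1) (by omega) (by omega)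
        refine ⟨2 * D + 2 * D', by omega, ?_, ?_⟩
        · rw [hM]; nlinarith
        · have := rep_add h4 h4'
          rw [← Pi.single_add] at this
          have e : ((M : ℤ) + ((M + 1 : ℕ) : ℤ)) = (N : ℤ) := by rw [hM]; push_cast; ring
          rwa [e] at this

theorem rep_int (j : Fin k) (n : ℤ) :
    ∃ D : ℕ, 1 ≤ D ∧ (D : ℤ) ≤ 3 * (1 + n ^ 2) ∧ RepA A k (Pi.single j n) D := by
  rcases lt_trichotomy n 0 with h | h | h
  · obtain ⟨N, hN⟩ := Int.eq_ofNat_of_zero_le (show 0 ≤ -n by omega)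
    obtain ⟨D, h1, h2, h3⟩ := rep_nat (A := A) j N (by omega)
    refine ⟨2 * 0 + 2 * D, by omega, ?_, ?_⟩
    · have h4 : (2 * (D : ℤ) + 1) ≤ 3 * (N : ℤ) ^ 2 := by exact_mod_cast h2
      have h5 : n ^ 2 = (N : ℤ) ^ 2 := by rw [← hN]; ring
      rw [h5]
      push_cast
      linarith
    · have := rep_sub (rep_zero (A := A) (k := k) 0) h3
      rw [zero_sub, ← Pi.single_neg] at this
      have e : -(N : ℤ) = n := by omega
      rwa [e] at this
  · subst h
    refine ⟨1, le_rfl, by norm_num, ?_⟩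
    rw [Pi.single_zero]
    exact rep_zero 1
  · obtain ⟨N, hN⟩ := Int.eq_ofNat_of_zero_le h.le
    obtain ⟨D, h1, h2, h3⟩ := rep_nat (A := A) j N (by omega)
    refine ⟨D, h1, ?_, ?_⟩
    · have h4 : (2 * (D : ℤ) + 1) ≤ 3 * (N : ℤ) ^ 2 := by exact_mod_cast h2
      rw [hN]
      nlinarith [sq_nonneg (N : ℤ)]
    · rwa [hN]

/-- the constants -/
def cst : ℕ → ℕ
  | 0 => 1
  | m + 1 => 2 * cst m + 6

theorem rep_finset (n : Fin k → ℤ) (s : Finset (Fin k)) :
    ∃ D : ℕ, 1 ≤ D ∧ (D : ℤ) ≤ cst s.card * (1 + ∑ j ∈ s, n j ^ 2) ∧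
      RepA A k (∑ j ∈ s, Pi.single j (n j)) D := by
  classical
  induction s using Finset.induction_on with
  | empty => exact ⟨1, le_rfl, by simp [cst], by simpa using rep_zero 1⟩
  | insert j s hj ih =>
    obtain ⟨D, h1, h2, h3⟩ := ih
    obtain ⟨D', h1', h2', h3'⟩ := rep_int (A := A) j (n j)
    refine ⟨2 * D' + 2 * D, by omega, ?_, ?_⟩
    · rw [Finset.sum_insert hj, Finset.card_insert_of_notMem hj]
      simp only [cst]
      push_cast
      have h5 : 0 ≤ ∑ j ∈ s, n j ^ 2 := Finset.sum_nonneg (fun _ _ => sq_nonneg _)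
      have h6 : 0 ≤ n j ^ 2 := sq_nonneg _
      have h7 : (0 : ℤ) ≤ cst s.card := by positivity
      nlinarith [mul_nonneg h7 h6, mul_nonneg h7 h5]
    · rw [Finset.sum_insert hj]
      exact rep_add h3' h3

end rep

end Pool.Agent.TH954.W.FamA

namespace Pool.Agent.TH954.W

/-- **Job 2465.** -/
theorem famA : T_famA := by
  intro K _ A k
  refine ⟨FamA.cst k, fun n => ?_⟩
  obtain ⟨D, h1, h2, h3⟩ := FamA.rep_finset (A := A) n Finset.univ
  refine ⟨D, h1, ?_, ?_⟩
  · simpa using h2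
  · have e : ∑ j, Pi.single j (n j) = n := by
      rw [Finset.univ_sum_single]
    rwa [e] at h3

end Pool.Agent.TH954.W
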