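import Pool.Agent.TH954.W.LocW
import Pool.Agent.TH954.V.Hilb

/-!
# From the local to the global inequality; existence of the auxiliary form
-/

set_option autoImplicit false
set_option linter.unusedSectionVars false

open MvPolynomial NumberField Height Pool.Agent.TH954.V

namespace Pool.Agent.TH954.W

section glob

/-- height with respect to the closed subscheme defined by the forms `f`, relative to `L` -/
noncomputable def hYW {K L : Type} [Field K] [Field L] [NumberField L] [Algebra K L] {k n s : ℕ}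
    (f : Fin s → MvPolynomial (Fin k × Fin n) K)
    (δ : Fin s → Fin k → ℕ) (u : Fin k → Fin n → L) : ℝ :=
  tot (fun w => -Real.log (⨆ i, nvW w (δ i) (f i) u))

/-- From the local to the global inequality. -/
theorem globW {K : Type} [Field K] [NumberField K] {k n e s : ℕ}
    (wq : Fin e → MvPolynomial (Fin k × Fin n) K)
    (f : Fin s → MvPolynomial (Fin k × Fin n) K)
    (δ : Fin s → Fin k → ℕ) (hf : ∀ i, MH (δ i) (f i)) {N m n' : ℕ}
    (G : MvPolynomial (Fin m × Fin n') K) (d : Fin m → ℕ)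
    (Fm : Fin m → Finset (Fin n' → MvPolynomial (Fin k × Fin n) K))
    (hloc : ∃ (A : Finset K) (M e : ℕ), 1 ≤ M ∧ ∀ (L : Type) [Field L]
      [Algebra K L] (w : AbsoluteValue L ℝ) (u : Fin k → Fin n → L), OnS wq u →
      ∀ t : Fin m → Fin n' → L, (∀ l, Tg (Fm l) u (t l)) →
        (w (ev G t) / ∏ l, (⨆ c, w (t l c)) ^ d l) ^ N ≤
          kap A M e w * ⨆ i, nvW w (δ i) (f i) u) :
    ∃ C : ℝ, 0 ≤ C ∧ ∀ (L : Type) [Field L] [NumberField L] [Algebra K L]
      (u : Fin k → Fin n → L), OnS wq u →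
      ∀ t : Fin m → Fin n' → L, (∀ l, Tg (Fm l) u (t l)) → ev G t ≠ 0 →
      (∃ i, ev (f i) u ≠ 0) ∧
      FS (fun w : AbsoluteValue L ℝ => -Real.log (⨆ i, nvW w (δ i) (f i) u)) ∧
      hYW f δ u ≤ N * ∑ l, (d l : ℝ) * logHeight (t l) + C * Module.finrank ℚ L := by
  classical
  obtain ⟨A, M, e', hM1, hA⟩ := hloc
  obtain ⟨C, hC0, hC⟩ := tot_kap A hM1 e'
  choose A' M' hM' hA' using fun i => nvW_le (f i) (δ i) (hf i)
  refine ⟨C, hC0, fun L _ _ _ u hu t ht hP => ?_⟩
  obtain ⟨FM, hCL⟩ := hC L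
  set g : L := ev G t with hg
  have hw0 : ∀ l, t l ≠ 0 := fun l => (ht l).1
  set T : AbsoluteValue L ℝ → ℝ := fun v => v g / ∏ l, (⨆ c, v (t l c)) ^ d l with hT
  set U : AbsoluteValue L ℝ → ℝ := fun v => ⨆ i, nvW v (δ i) (f i) u with hU
  have hT0 : ∀ v, 0 < T v := fun v => div_pos (v.pos hP)
    (Finset.prod_pos (fun l _ => pow_pos (sup_posW v (hw0 l)) _))
  have hloc : ∀ v, T v ^ N ≤ kap A M e' v * U v := fun v => hA L v u hu t ht
  have hM0 : ∀ v : AbsoluteValue L ℝ, 0 < kap A M e' v := fun v =>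
    zero_lt_one.trans_le (one_le_kap A hM1 e' v)
  have hU0 : ∀ v, 0 < U v := by
    intro v
    by_contra hcon
    have h1 : kap A M e' v * U v ≤ 0 :=
      mul_nonpos_of_nonneg_of_nonpos (hM0 v).le (not_lt.mp hcon)
    have h2 := pow_pos (hT0 v) N
    linarith [hloc v]
  have hlogT : ∀ v, Real.log (T v) =
      Real.log (v g) - ∑ l, (d l : ℝ) * Real.log (⨆ c, v (t l c)) := by
    intro v
    rw [hT]
    simp only
    rw [Real.log_div (v.pos hP).ne' (Finset.prod_pos
      (fun l _ => pow_pos (sup_posW v (hw0 l)) _)).ne', Real.log_prod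
      (fun l _ => (pow_pos (sup_posW v (hw0 l)) _).ne')]
    simp_rw [Real.log_pow]
  have hineq : ∀ v, -Real.log (U v) ≤
      Real.log (kap A M e' v) + ((-N : ℝ) * Real.log (v g) +
        ∑ l, ((N : ℝ) * d l) * Real.log (⨆ c, v (t l c))) := by
    intro v
    have h1 := Real.log_le_log (pow_pos (hT0 v) N) (hloc v)
    rw [Real.log_pow, Real.log_mul (hM0 v).ne' (hU0 v).ne', hlogT v] at h1
    have h2 : ∑ l, ((N : ℝ) * d l) * Real.log (⨆ c, v (t l c)) =
        N * ∑ l, (d l : ℝ) * Real.log (⨆ c, v (t l c)) := by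
      rw [Finset.mul_sum]
      exact Finset.sum_congr rfl (fun l _ => by ring)
    rw [h2]
    linarith
  have Fg : FS (fun v : AbsoluteValue L ℝ => Real.log (v g)) := FS_log hP
  have Fw : ∀ l, FS (fun v : AbsoluteValue L ℝ => Real.log (⨆ c, v (t l c))) :=
    fun l => FS_sup' (hw0 l)
  have Fsum : FS (fun v : AbsoluteValue L ℝ =>
      ∑ l, ((N : ℝ) * d l) * Real.log (⨆ c, v (t l c))) :=
    FS_sum _ (fun l _ => FS_mul (Fw l) _)
  have FT : FS (fun v => Real.log (T v)) := by
    have h1 : (fun v => Real.log (T v)) = fun v => Real.log (v g) +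
        ∑ l, (-(d l : ℝ)) * Real.log (⨆ c, v (t l c)) := by
      funext v
      rw [hlogT v, sub_eq_add_neg, ← Finset.sum_neg_distrib]
      congr 1
      exact Finset.sum_congr rfl (fun l _ => by ring)
    rw [h1]
    exact FS_add Fg (FS_sum _ (fun l _ => FS_mul (Fw l) _))
  have Fk : ∀ i, FS (fun v : AbsoluteValue L ℝ => Real.log (kap (A' i) (M' i) 1 v)) := by
    intro i
    obtain ⟨C', -, hC'⟩ := tot_kap (A' i) (hM' i) 1
    exact (hC' L).1
  have FU : FS (fun v => -Real.log (U v)) := by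
    refine ((FM.union FT).union (Set.finite_iUnion (fun i => Fk i))).subset
      (fun v hv => ?_)
    by_contra hcon
    simp only [Set.mem_union, Set.mem_iUnion, Set.mem_ofPred_eq, not_or, not_not, not_exists]
      at hcon
    obtain ⟨⟨h1, h2⟩, h3⟩ := hcon
    apply hv
    have hlog1 : ∀ x : ℝ, 0 < x → Real.log x = 0 → x = 1 := by
      intro x hx h
      rcases Real.log_eq_zero.mp h with h | h | h
      · exact absurd h hx.ne'
      · exact h
      · linarith
    have hM : kap A M e' (av v) = 1 := hlog1 _ (hM0 _) h1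
    have hTv : T (av v) = 1 := hlog1 _ (hT0 _) h2
    have h4 := hloc (av v)
    rw [hM, hTv, one_pow, one_mul] at h4
    have h5 : U (av v) ≤ 1 := by
      rcases isEmpty_or_nonempty (Fin s) with he | he
      · simp only [hU, Real.iSup_of_isEmpty]
        exact zero_le_one
      · refine ciSup_le (fun i => ?_)
        have h6 : kap (A' i) (M' i) 1 (av v) = 1 :=
          hlog1 _ (zero_lt_one.trans_le (one_le_kap _ (hM' i) _ _)) (h3 i)
        rw [← h6]
        exact hA' i L (av v) u hu.1
    change -Real.log (U (av v)) = 0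
    rw [le_antisymm h5 h4, Real.log_one, neg_zero]
  refine ⟨?_, FU, ?_⟩
  · by_contra hcon
    push Not at hcon
    have w1 : InfinitePlace L := Classical.arbitrary _
    have h1 := hU0 (ai w1)
    have h2 : U (ai w1) = 0 := by
      have : (fun i => nvW (ai w1) (δ i) (f i) u) = fun _ => 0 := by
        funext i
        simp [nvW, hcon i]
      rw [hU]
      simp only
      rw [show (⨆ i, nvW (ai w1) (δ i) (f i) u) =
        iSup (fun i => nvW (ai w1) (δ i) (f i) u) from rfl, this]
      rcases isEmpty_or_nonempty (Fin s) with he | he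
      · rw [Real.iSup_of_isEmpty]
      · rw [ciSup_const]
    rw [h2] at h1
    exact lt_irrefl _ h1
  · have h1 : hYW f δ u ≤ tot (fun v => Real.log (kap A M e' v) +
        ((-N : ℝ) * Real.log (v g) +
        ∑ l, ((N : ℝ) * d l) * Real.log (⨆ c, v (t l c)))) :=
      tot_le FU (FS_add FM (FS_add (FS_mul Fg _) Fsum)) (fun w => hineq (ai w))
        (fun v => hineq (av v))
    rw [tot_add FM (FS_add (FS_mul Fg _) Fsum), tot_add (FS_mul Fg _) Fsum, tot_mul Fg,
      tot_log hP, tot_sum _ (fun l _ => FS_mul (Fw l) _)] at h1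
    have h2 : ∑ l, tot (fun v : AbsoluteValue L ℝ =>
        ((N : ℝ) * d l) * Real.log (⨆ c, v (t l c))) =
        N * ∑ l, (d l : ℝ) * logHeight (t l) := by
      rw [Finset.mul_sum]
      refine Finset.sum_congr rfl (fun l _ => ?_)
      rw [tot_mul (Fw l), tot_sup' (hw0 l)]
      ring
    rw [h2] at h1
    linarith

end glob

section count

lemma totalDegree_le_of_MH {K : Type} [Field K] {k n : ℕ} {E : Fin k → ℕ}
    {f : MvPolynomial (Fin k × Fin n) K} (hf : MH E f) :
    f.totalDegree ≤ ∑ j, E j := by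
  unfold totalDegree
  refine Finset.sup_le (fun m hm => ?_)
  rw [Finsupp.sum_fintype _ _ (fun _ => rfl), Fintype.sum_prod_type]
  rw [Finset.sum_congr rfl (fun i _ => hf m hm i)]

/-- Existence of the auxiliary form. -/
theorem countW {K : Type} [Field K] {k n e y : ℕ}
    (wq : Fin e → MvPolynomial (Fin k × Fin n) K)
    {t' : ℕ} (F : Fin t' → Type) [∀ i, Field (F i)] [∀ i, Algebra K (F i)]
    (η : ∀ i, Fin k → Fin n → F i) (hη : ∀ i, OnS wq (η i))
    (htr : ∀ i, Algebra.trdeg K (IntermediateField.adjoin K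
      (Set.range (fun p : Fin k × Fin n => η i p.1 p.2))) ≤ (y : Cardinal)) :
    ∃ c : ℕ, 1 ≤ c ∧ ∀ (m n' : ℕ) (σ : Fin m → Fin k → ℕ)
      (Fm : Fin m → Finset (Fin n' → MvPolynomial (Fin k × Fin n) K)),
      (∀ l, IsFam wq (σ l) (Fm l)) → ∀ t : ∀ i, Fin m → Fin n' → F i,
      (∀ i l, Tg (Fm l) (η i) (t i l)) →
      ∀ (d : Fin m → ℕ) (B : Finset (Fin m × Fin n' →₀ ℕ)),
      (∀ e ∈ B, ∀ l, ∑ c, e (l, c) = d l) →
      c * (1 + ∑ l, d l * ∑ j, σ l j) ^ y < B.card →
      ∃ G : MvPolynomial (Fin m × Fin n') K, G ≠ 0 ∧ G.support ⊆ B ∧ MH d G ∧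
        ∀ i, ev G (t i) = 0 := by
  classical
  choose c0 hc0 using fun i => Hil.hilb K (F i) (Fin k × Fin n)
    (fun p : Fin k × Fin n => η i p.1 p.2) y (htr i)
  set c1 : ℕ := ∑ i, c0 i with hc1
  refine ⟨c1 + 1, by omega, ?_⟩
  intro m n' σ Fm hFm t ht d B hB hlt
  set E : ℕ := ∑ l, d l * ∑ j, σ l j with hE
  -- choice of forms
  choose C hC s hs0 hs using fun (i : Fin t') (l : Fin m) =>
    Tg.exists_ne (hFm l) (hη i) (ht i l)
  -- the spaces
  let V : (i : Fin t') → Submodule K (F i) := fun i =>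
    Submodule.map (aeval (R := K) (fun p : Fin k × Fin n => η i p.1 p.2)).toLinearMap
      (restrictTotalDegree (Fin k × Fin n) K E)
  have hmem : ∀ (i : Fin t') (G : MvPolynomial (Fin m × Fin n') K), MH d G →
      ev G (fun l c => ev (C i l c) (η i)) ∈ V i := by
    intro i G hG
    refine ⟨cmp G (C i), ?_, ?_⟩
    · rw [SetLike.mem_coe, mem_restrictTotalDegree]
      refine (totalDegree_le_of_MH (MH_cmp hG (C i) σ
        (fun l c => (hFm l).1 _ (hC i l) c))).trans (le_of_eq ?_)
      rw [Finset.sum_comm, hE]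
      refine Finset.sum_congr rfl (fun l _ => ?_)
      rw [Finset.mul_sum]
    · change ev (cmp G (C i)) (η i) = _
      rw [ev_cmp]
  have hmonMH : ∀ e ∈ B, MH d (monomial e (1 : K)) := by
    intro e he m' hm' l
    rw [support_monomial, if_neg one_ne_zero, Finset.mem_singleton] at hm'
    rw [hm']
    exact hB e he l
  let μ : B → ((i : Fin t') → V i) := fun e i =>
    ⟨ev (monomial e.1 (1 : K)) (fun l c => ev (C i l c) (η i)), hmem i _ (hmonMH e.1 e.2)⟩
  have hdep : ¬ LinearIndependent K μ := by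
    intro hli
    have h1 := hli.fintype_card_le_finrank
    have h3 : Module.finrank K ((i : Fin t') → V i) = ∑ i, Module.finrank K (V i) :=
      Module.finrank_pi_fintype K
    rw [Fintype.card_coe, h3] at h1
    have h4 : ∑ i, Module.finrank K (V i) ≤ c1 * (E + 1) ^ y := by
      rw [hc1, Finset.sum_mul]
      exact Finset.sum_le_sum (fun i _ => hc0 i E)
    have h6 : c1 * (E + 1) ^ y ≤ (c1 + 1) * (1 + E) ^ y := by
      rw [add_comm E 1]
      exact Nat.mul_le_mul_right _ (by omega)
    omega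
  rw [Fintype.not_linearIndependent_iff] at hdep
  obtain ⟨g, hg1, e0, hg2⟩ := hdep
  set G : MvPolynomial (Fin m × Fin n') K := ∑ e, g e • monomial e.1 (1 : K) with hG
  have hcoeff : ∀ e : B, coeff e.1 G = g e := by
    intro e
    rw [hG, coeff_sum, Finset.sum_eq_single e]
    · rw [coeff_smul, coeff_monomial, if_pos rfl, smul_eq_mul, mul_one]
    · intro e' _ hne
      rw [coeff_smul, coeff_monomial, if_neg (fun h => hne (Subtype.ext h)), smul_zero]
    · intro h
      exact absurd (Finset.mem_univ _) h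
  have hGs : G.support ⊆ B := by
    intro e he
    obtain ⟨e', -, he'⟩ := Finset.mem_biUnion.mp (support_sum he)
    have h6 := support_smul he'
    rw [support_monomial, if_neg one_ne_zero, Finset.mem_singleton] at h6
    rw [h6]
    exact e'.2
  have hGMH : MH d G := fun e he l => hB e (hGs he) l
  refine ⟨G, ?_, hGs, hGMH, ?_⟩
  · intro h0
    apply hg2
    rw [← hcoeff e0, h0, coeff_zero]
  · intro i
    have h1 : ev G (fun l c => ev (C i l c) (η i)) = 0 := by
      have h2 : (∑ e, g e • μ e) i = 0 := by rw [hg1]; rfl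
      have h3 : ((∑ e, g e • μ e) i : V i).val =
          ∑ e : B, g e • ev (monomial e.1 (1 : K)) (fun l c => ev (C i l c) (η i)) := by
        rw [Finset.sum_apply, Submodule.coe_sum]
        rfl
      rw [h2] at h3
      have h4 : ev G (fun l c => ev (C i l c) (η i)) =
          ∑ e : B, g e • ev (monomial e.1 (1 : K)) (fun l c => ev (C i l c) (η i)) := by
        rw [hG]
        simp only [ev, map_sum, map_smul]
      rw [h4, ← h3]
      rfl
    have h5 : (fun l c => ev (C i l c) (η i)) = fun l => s i l • t i l := by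
      funext l
      exact hs i l
    rw [h5, ev_smul hGMH] at h1
    exact (mul_eq_zero.mp h1).resolve_left
      (Finset.prod_ne_zero_iff.mpr (fun l _ => pow_ne_zero _ (hs0 i l)))

end count

end Pool.Agent.TH954.W
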