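import Pool.Agent.TH954.W.NullW

/-!
# Local estimates for families of forms and for an auxiliary form
-/

set_option autoImplicit false
set_option linter.unusedSectionVars false

open MvPolynomial Pool.Agent.TH954.V

namespace Pool.Agent.TH954.W

/-- `u` represents a point of the closed subset `wq = 0` of a product of projective spaces -/
def OnS {K F : Type} [Field K] [Field F] [Algebra K F] {k n e : ℕ}
    (wq : Fin e → MvPolynomial (Fin k × Fin n) K) (u : Fin k → Fin n → F) : Prop :=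
  (∀ j, u j ≠ 0) ∧ ∀ i, ev (wq i) u = 0

/-- `t` represents the image of the point `u` under the map given by the family `Fm` -/
def Tg {K F : Type} [Field K] [Field F] [Algebra K F] {k n : ℕ} {κ : Type}
    (Fm : Finset (κ → MvPolynomial (Fin k × Fin n) K)) (u : Fin k → Fin n → F) (t : κ → F) :
    Prop :=
  t ≠ 0 ∧ ∀ C ∈ Fm, ∃ s : F, (fun c => ev (C c) u) = s • t

/-- a family of tuples of forms of multidegree `σ` which defines a map on `wq = 0` -/
def IsFam {K : Type} [Field K] {k n e : ℕ} {κ : Type}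
    (wq : Fin e → MvPolynomial (Fin k × Fin n) K)
    (σ : Fin k → ℕ) (Fm : Finset (κ → MvPolynomial (Fin k × Fin n) K)) : Prop :=
  (∀ C ∈ Fm, ∀ c, MH σ (C c)) ∧
  ∀ (F : Type) [Field F] [Algebra K F] (u : Fin k → Fin n → F), OnS wq u →
    ∃ C ∈ Fm, ∃ c, ev (C c) u ≠ 0

section

variable {K : Type} [Field K] {k n e : ℕ}

lemma Tg.exists_ne {F : Type} [Field F] [Algebra K F] {κ : Type}
    {wq : Fin e → MvPolynomial (Fin k × Fin n) K} {σ : Fin k → ℕ}
    {Fm : Finset (κ → MvPolynomial (Fin k × Fin n) K)} (hF : IsFam wq σ Fm)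
    {u : Fin k → Fin n → F} (hu : OnS wq u) {t : κ → F} (ht : Tg Fm u t) :
    ∃ C ∈ Fm, ∃ s : F, s ≠ 0 ∧ (fun c => ev (C c) u) = s • t := by
  obtain ⟨C, hC, c, hc⟩ := hF.2 F u hu
  obtain ⟨s, hs⟩ := ht.2 C hC
  refine ⟨C, hC, s, ?_, hs⟩
  rintro rfl
  apply hc
  have := congrFun hs c
  rw [zero_smul] at this
  exact this

/-- Local lower bound for a family of forms without common zero. -/
theorem locW_fam (wq : Fin e → MvPolynomial (Fin k × Fin n) K) (hw : ∀ i, ∃ δ, MH δ (wq i))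
    {κ : Type} [Fintype κ] {σ : Fin k → ℕ}
    (Fm : Finset (κ → MvPolynomial (Fin k × Fin n) K)) (hFm : IsFam wq σ Fm) :
    ∃ (A : Finset K) (M : ℕ), 1 ≤ M ∧ ∀ (L : Type) [Field L] [Algebra K L]
      (w : AbsoluteValue L ℝ) (u : Fin k → Fin n → L), OnS wq u → ∀ t : κ → L, Tg Fm u t →
      ∃ C ∈ Fm, ∃ s : L, (fun c => ev (C c) u) = s • t ∧
        ∏ j, (⨆ c, w (u j c)) ^ σ j ≤ kap A M 1 w * (w s * ⨆ c, w (t c)) := by
  classical
  choose ρ hρ using hw
  let e' := Fintype.equivFin (↥Fm × κ)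
  obtain ⟨N, hN, t', F, iF, iA, η, hη0, hη1, hη2, hη3⟩ := nullW K wq (fun i => ⟨ρ i, hρ i⟩)
    (fun i => (e'.symm i).1.1 (e'.symm i).2) (fun i => ⟨_, hFm.1 _ (e'.symm i).1.2 _⟩)
  have hempty : Fin t' → False := by
    intro i
    obtain ⟨C, hC, c, hne⟩ := hFm.2 (F i) (η i) ⟨fun j => (hη0 i j).ne_zero, hη1 i⟩
    apply hne
    have := hη2 i (e' (⟨C, hC⟩, c))
    simpa using this
  have h1 := hη3 1 ⟨_, MH_one⟩ (fun i => (hempty i).elim)
  obtain ⟨A, M, hM1, hA⟩ := locW_null wq ρ hρ (fun i => (e'.symm i).1.1 (e'.symm i).2)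
    (fun _ => σ) (fun i => hFm.1 _ (e'.symm i).1.2 _) 1 (fun _ => 0) MH_one N h1
  refine ⟨A, M, hM1, fun L _ _ w u hu t ht => ?_⟩
  have h2 := hA L w u hu.1 hu.2
  have h3 : nvW w (fun _ => 0) (1 : MvPolynomial (Fin k × Fin n) K) u = 1 := by
    simp [nvW, ev]
  rw [h3, one_pow] at h2
  have hM0 : 0 ≤ kap A M 1 w := zero_le_one.trans (one_le_kap A hM1 1 w)
  have hne : Nonempty (Fin (Fintype.card (↥Fm × κ))) := by
    by_contra hcon
    rw [not_nonempty_iff] at hcon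
    rw [Real.iSup_of_isEmpty, mul_zero] at h2
    linarith
  obtain ⟨i, hi⟩ := Finite.exists_max
    (fun i => nvW w σ ((e'.symm i).1.1 (e'.symm i).2) u)
  have h4 : (⨆ i, nvW w σ ((e'.symm i).1.1 (e'.symm i).2) u) ≤
      nvW w σ ((e'.symm i).1.1 (e'.symm i).2) u := ciSup_le hi
  have h5 : 1 ≤ kap A M 1 w * nvW w σ ((e'.symm i).1.1 (e'.symm i).2) u :=
    h2.trans (mul_le_mul_of_nonneg_left h4 hM0)
  obtain ⟨s, hs⟩ := ht.2 _ (e'.symm i).1.2
  refine ⟨_, (e'.symm i).1.2, s, hs, ?_⟩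
  have hpos : 0 < ∏ j, (⨆ c, w (u j c)) ^ σ j :=
    Finset.prod_pos (fun j _ => pow_pos (sup_posW w (hu.1 j)) _)
  have h6 : w (ev ((e'.symm i).1.1 (e'.symm i).2) u) ≤ w s * ⨆ c, w (t c) := by
    have h7 : ev ((e'.symm i).1.1 (e'.symm i).2) u = (s • t) (e'.symm i).2 :=
      congrFun hs (e'.symm i).2
    rw [h7, Pi.smul_apply, smul_eq_mul, w.map_mul]
    exact mul_le_mul_of_nonneg_left (le_supW w _ _) (w.nonneg _)
  unfold nvW at h5
  rw [← mul_div_assoc, one_le_div hpos] at h5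
  exact h5.trans (mul_le_mul_of_nonneg_left h6 hM0)

/-- The local estimate for the auxiliary form. -/
theorem locW_G (wq : Fin e → MvPolynomial (Fin k × Fin n) K) (hw : ∀ i, ∃ δ, MH δ (wq i)) {s : ℕ}
    (f : Fin s → MvPolynomial (Fin k × Fin n) K)
    (δ : Fin s → Fin k → ℕ) (hf : ∀ i, MH (δ i) (f i)) {N : ℕ} {t' : ℕ}
    (F : Fin t' → Type) [∀ i, Field (F i)] [∀ i, Algebra K (F i)]
    (η : ∀ i, Fin k → Fin n → F i)
    (hη : ∀ S : MvPolynomial (Fin k × Fin n) K, (∃ σ, MH σ S) → (∀ i, ev S (η i) = 0) →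
      ∀ c : Fin k → Fin n,
        (S * ∏ j, X (j, c j)) ^ N ∈ Ideal.span (Set.range f ∪ Set.range wq))
    {m n' : ℕ} (σ : Fin m → Fin k → ℕ)
    (Fm : Fin m → Finset (Fin n' → MvPolynomial (Fin k × Fin n) K))
    (hFm : ∀ l, IsFam wq (σ l) (Fm l))
    (G : MvPolynomial (Fin m × Fin n') K) (d : Fin m → ℕ) (hd : MH d G)
    (hG : ∀ i, ∃ t : Fin m → Fin n' → F i, (∀ l, Tg (Fm l) (η i) (t l)) ∧ ev G t = 0) :
    ∃ (A : Finset K) (M e : ℕ), 1 ≤ M ∧ ∀ (L : Type) [Field L] [Algebra K L]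
      (w : AbsoluteValue L ℝ) (u : Fin k → Fin n → L), OnS wq u →
      ∀ t : Fin m → Fin n' → L, (∀ l, Tg (Fm l) u (t l)) →
        (w (ev G t) / ∏ l, (⨆ c, w (t l c)) ^ d l) ^ N ≤
          kap A M e w * ⨆ i, nvW w (δ i) (f i) u := by
  classical
  choose A1 M1 hM11 hA1 using fun l => locW_fam wq hw (Fm l) (hFm l)
  choose ρ hρ using hw
  -- the forms attached to a choice
  have h1 : ∀ T : (l : Fin m) → ↥(Fm l), ∃ (A : Finset K) (M : ℕ), 1 ≤ M ∧
      ∀ (L : Type) [Field L] [Algebra K L]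
      (w : AbsoluteValue L ℝ) (u : Fin k → Fin n → L), OnS wq u →
        nvW w (fun j => ∑ l, d l * σ l j) (cmp G (fun l => (T l).1)) u ^ N ≤
        kap A M 1 w * ⨆ i, nvW w (δ i) (f i) u := by
    intro T
    have hhomT := MH_cmp hd (fun l => (T l).1) σ (fun l c => (hFm l).1 _ (T l).2 c)
    obtain ⟨A, M, hM, hA⟩ := locW_null wq ρ hρ f δ hf _ _ hhomT N (hη _ ⟨_, hhomT⟩ (fun i => by
      obtain ⟨t, ht, h0⟩ := hG i
      choose r hr using fun l => (ht l).2 _ (T l).2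
      rw [ev_cmp]
      have h3 : (fun (l : Fin m) (c : Fin n') => ev ((T l).1 c) (η i)) = fun l => r l • t l := by
        funext l
        exact hr l
      rw [h3, ev_smul hd, h0, mul_zero]))
    exact ⟨A, M, hM, fun L _ _ w u hu => hA L w u hu.1 hu.2⟩
  choose A2 M2 hM21 hA2 using h1
  obtain ⟨B1, hB1⟩ := kap_prod_le Finset.univ A1 (fun i => M1 i ^ (d i * N))
    (fun i => 1 * (d i * N))
  obtain ⟨B2, hB2⟩ := kap_prod_le Finset.univ A2 M2 (fun _ => 1)
  refine ⟨B1 ∪ B2, (∏ i, M1 i ^ (d i * N)) * ∏ T, M2 T,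
    (∑ i, 1 * (d i * N)) + ∑ _T : ((l : Fin m) → ↥(Fm l)), 1, ?_, ?_⟩
  · exact Nat.mul_pos (Finset.prod_pos (fun i _ => pow_pos (hM11 i) _))
      (Finset.prod_pos (fun T _ => hM21 T))
  intro L _ _ w u hu t ht
  refine le_trans ?_ (mul_le_mul_of_nonneg_right (kap_mul_le B1 B2 _ _ _ _ w)
    (Real.iSup_nonneg (fun i => nvW_nonneg _ _ _ _)))
  refine le_trans ?_ (mul_le_mul_of_nonneg_right (mul_le_mul (hB1 L w) (hB2 L w)
    (Finset.prod_nonneg (fun T _ => zero_le_one.trans (one_le_kap _ (hM21 T) _ _)))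
    (zero_le_one.trans (one_le_kap _ (show 1 ≤ ∏ i, M1 i ^ (d i * N) from
      Finset.prod_pos (fun i _ => pow_pos (show 0 < M1 i from hM11 i) _)) _ _)))
    (Real.iSup_nonneg (fun i => nvW_nonneg _ _ _ _)))
  choose T0 hT0 r hr1 hr2 using fun l => hA1 l L w u hu (t l) (ht l)
  set T : (l : Fin m) → ↥(Fm l) := fun l => ⟨T0 l, hT0 l⟩ with hT
  set g : L := ev G t with hg
  set ww : Fin m → ℝ := fun l => ⨆ c, w (t l c) with hww
  set Q : Fin k → ℝ := fun j => ⨆ c, w (u j c) with hQ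
  have hw0 : ∀ l, 0 < ww l := fun l => sup_posW w (ht l).1
  have hQ0 : ∀ j, 0 < Q j := fun j => sup_posW w (hu.1 j)
  have hsup0 : 0 ≤ ⨆ i, nvW w (δ i) (f i) u :=
    Real.iSup_nonneg (fun i => nvW_nonneg _ _ _ _)
  have hk1 : ∀ i, 1 ≤ kap (A1 i) (M1 i) 1 w := fun i => one_le_kap _ (hM11 i) _ _
  have hk2 : ∀ T, 1 ≤ kap (A2 T) (M2 T) 1 w := fun T => one_le_kap _ (hM21 T) _ _
  -- value of the form attached to `T`
  have h3 : ev (cmp G (fun l => (T l).1)) u = (∏ l, r l ^ d l) * g := by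
    rw [ev_cmp]
    have h3 : (fun (l : Fin m) (c : Fin n') => ev ((T l).1 c) u) = fun l => r l • t l := by
      funext l
      exact hr1 l
    rw [h3, ev_smul hd]
  have h4 : nvW w (fun j => ∑ l, d l * σ l j) (cmp G (fun l => (T l).1)) u =
      (∏ l, w (r l) ^ d l) * w g / ∏ l, (∏ j, Q j ^ σ l j) ^ d l := by
    unfold nvW
    rw [h3, w.map_mul, w.map_prod]
    simp_rw [w.map_pow]
    congr 1
    rw [show (∏ j, (⨆ c, w (u j c)) ^ (∑ l, d l * σ l j)) =
      ∏ j, Q j ^ (∑ l, d l * σ l j) from rfl]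
    have : ∀ l, (∏ j, Q j ^ σ l j) ^ d l = ∏ j, Q j ^ (d l * σ l j) := by
      intro l
      rw [← Finset.prod_pow]
      refine Finset.prod_congr rfl (fun j _ => ?_)
      rw [← pow_mul, mul_comm]
    simp_rw [this]
    rw [Finset.prod_comm]
    refine Finset.prod_congr rfl (fun j _ => ?_)
    rw [Finset.prod_pow_eq_pow_sum]
  have h5 : w g / ∏ l, ww l ^ d l ≤ (∏ l, kap (A1 l) (M1 l) 1 w ^ d l) *
      nvW w (fun j => ∑ l, d l * σ l j) (cmp G (fun l => (T l).1)) u := by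
    rw [h4]
    have hA0 : 0 < ∏ l, ww l ^ d l := Finset.prod_pos (fun l _ => pow_pos (hw0 l) _)
    have hB0 : 0 < ∏ l, (∏ j, Q j ^ σ l j) ^ d l := Finset.prod_pos
      (fun i _ => pow_pos (Finset.prod_pos (fun j _ => pow_pos (hQ0 j) _)) _)
    rw [← mul_div_assoc, div_le_div_iff₀ hA0 hB0]
    have h6 : ∏ l, (∏ j, Q j ^ σ l j) ^ d l ≤
        (∏ l, kap (A1 l) (M1 l) 1 w ^ d l) * ((∏ l, w (r l) ^ d l) * ∏ l, ww l ^ d l) := by
      rw [← Finset.prod_mul_distrib, ← Finset.prod_mul_distrib]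
      refine Finset.prod_le_prod (fun i _ => pow_nonneg (Finset.prod_nonneg
        (fun j _ => pow_nonneg (hQ0 j).le _)) _) (fun i _ => ?_)
      rw [← mul_pow, ← mul_pow]
      exact pow_le_pow_left₀ (Finset.prod_nonneg (fun j _ => pow_nonneg (hQ0 j).le _)) (hr2 i) _
    calc w g * ∏ l, (∏ j, Q j ^ σ l j) ^ d l ≤
          w g * ((∏ l, kap (A1 l) (M1 l) 1 w ^ d l) *
            ((∏ l, w (r l) ^ d l) * ∏ l, ww l ^ d l)) :=
          mul_le_mul_of_nonneg_left h6 (w.nonneg _)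
      _ = _ := by ring
  have h7 : 0 ≤ w g / ∏ l, ww l ^ d l := div_nonneg (w.nonneg _)
    (Finset.prod_nonneg (fun l _ => pow_nonneg (hw0 l).le _))
  calc (w g / ∏ l, ww l ^ d l) ^ N ≤ ((∏ l, kap (A1 l) (M1 l) 1 w ^ d l) *
      nvW w (fun j => ∑ l, d l * σ l j) (cmp G (fun l => (T l).1)) u) ^ N :=
        pow_le_pow_left₀ h7 h5 N
    _ = (∏ i, kap (A1 i) (M1 i ^ (d i * N)) (1 * (d i * N)) w) *
      nvW w (fun j => ∑ l, d l * σ l j) (cmp G (fun l => (T l).1)) u ^ N := by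
        rw [mul_pow, ← Finset.prod_pow]
        simp_rw [← pow_mul, kap_pow]
    _ ≤ (∏ i, kap (A1 i) (M1 i ^ (d i * N)) (1 * (d i * N)) w) *
          (kap (A2 T) (M2 T) 1 w * ⨆ i, nvW w (δ i) (f i) u) := by
        refine mul_le_mul_of_nonneg_left (hA2 T L w u hu) ?_
        exact Finset.prod_nonneg (fun i _ =>
          zero_le_one.trans (one_le_kap _ (Nat.one_le_pow _ _ (hM11 i)) _ _))
    _ ≤ (∏ i, kap (A1 i) (M1 i ^ (d i * N)) (1 * (d i * N)) w) *
          ((∏ T, kap (A2 T) (M2 T) 1 w) * ⨆ i, nvW w (δ i) (f i) u) := by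
        refine mul_le_mul_of_nonneg_left (mul_le_mul_of_nonneg_right ?_ hsup0)
          (Finset.prod_nonneg (fun i _ =>
          zero_le_one.trans (one_le_kap _ (Nat.one_le_pow _ _ (hM11 i)) _ _)))
        rw [← Finset.mul_prod_erase Finset.univ (fun T => kap (A2 T) (M2 T) 1 w)
          (Finset.mem_univ T)]
        exact le_mul_of_one_le_right (zero_le_one.trans (hk2 T))
          (one_le_prodR _ (fun T _ => hk2 T))
    _ = _ := by ring

end

end Pool.Agent.TH954.W
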