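import Pool.Agent.TH954.W.ParA
import Pool.Agent.TH954.W.BoxA

/-!
# Heights attached to closed subschemes of powers of an abelian variety
-/

set_option autoImplicit false
set_option linter.unusedSectionVars false

open MvPolynomial NumberField Height Pool.Agent.TH954.V Pool.Agent.TH942

namespace Pool.Agent.TH954.W

/-- the pairs of a family of vectors and a family of degrees which are used -/
def BdA (k : ℕ) (H : ℤ) (T : ℕ) (good : (Fin k → Fin k → ℤ) → (Fin k → ℕ) → Prop) :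
    Set ((Fin k → Fin k → ℤ) × (Fin k → ℕ)) :=
  {p | LinearIndependent ℤ p.1 ∧ (∀ i j, |p.1 i j| ≤ H) ∧ (∀ i, p.2 i ≤ T) ∧ good p.1 p.2}

lemma BdA_finite (k : ℕ) (H : ℤ) (T : ℕ)
    (good : (Fin k → Fin k → ℤ) → (Fin k → ℕ) → Prop) : (BdA k H T good).Finite := by
  have h0 : ({u : Fin k → Fin k → ℤ | ∀ i j, |u i j| ≤ H}).Finite := by
    have h1 : (Set.univ.pi (fun _ : Fin k => Set.univ.pi
        (fun _ : Fin k => Set.Icc (-H) H))).Finite :=
      Set.Finite.pi' (fun _ => Set.Finite.pi' (fun _ => Set.finite_Icc _ _)) |>.subset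
        (fun u hu i j => hu i (Set.mem_univ _) j (Set.mem_univ _))
    refine h1.subset (fun u hu i _ j _ => ?_)
    exact abs_le.mp (hu i j)
  have h1 := h0.prod (Set.Finite.pi' (fun _ : Fin k => Set.finite_Iic T))
  refine h1.subset (fun p hp => ?_)
  exact ⟨hp.2.1, fun i => hp.2.2.1 i⟩

theorem main_A (hfam : T_famA) (hlat : T_latA) (hsolve : T_solve)
    (K : Type) [Field K] [NumberField K] (A : AbVar K) (r k y : ℕ)
    (hk : y + r * A.dim < k * A.dim) {s : ℕ}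
    (f : Fin s → MvPolynomial (Fin k × Fin A.n) K) (δ : Fin s → Fin k → ℕ)
    (hf : ∀ i, MH (δ i) (f i))
    (hdim : ∀ (F : Type) [Field F] [Algebra K F] (η : Fin k → A.Pt F),
      (∀ i, ev (f i) (fun j => (η j).1) = 0) →
      Algebra.trdeg K (IntermediateField.adjoin K
        (Set.range (fun p : Fin k × Fin A.n => (η p.1).1 p.2))) ≤ (y : Cardinal))
    (ε : ℝ) (hε : 0 < ε) :
    ∃ (Φ : MvPolynomial (Fin k × Fin A.n) K) (τ : Fin k → ℕ), MH τ Φ ∧
      (∃ (F : Type) (_ : Field F) (_ : Algebra K F) (P : Fin k → A.Pt F),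
        ev Φ (fun j => (P j).1) ≠ 0) ∧
      ∃ C : ℝ, ∀ (L : Type) [Field L] [NumberField L] [Algebra K L] (P : Fin k → A.Pt L),
        Module.finrank ℤ (AddSubgroup.closure (Set.range P)) ≤ r →
        ev Φ (fun j => (P j).1) ≠ 0 →
        (∃ i, ev (f i) (fun j => (P j).1) ≠ 0) ∧
        FS (fun w : AbsoluteValue L ℝ =>
          -Real.log (⨆ i, nvW w (δ i) (f i) (fun j => (P j).1))) ∧
        hYW f δ (fun j => (P j).1) ≤
          ε * ∑ j, logHeight (P j).1 + C * Module.finrank ℚ L := by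
  classical
  set g : ℕ := A.dim with hg
  have hk0 : 0 < k := by
    rcases Nat.eq_zero_or_pos k with h | h
    · rw [h, zero_mul] at hk
      omega
    · exact h
  have hg0 : 0 < g := by
    rcases Nat.eq_zero_or_pos g with h | h
    · rw [h, mul_zero, mul_zero] at hk
      omega
    · exact h
  obtain ⟨Ch, hCh, hcan⟩ := canA A
  -- the Nullstellensatz
  obtain ⟨N, hN, t', F, iF, iA, η, hη0, hη1, hη2, hη3⟩ := nullW K (wqA A k)
    (wqA_MH A k) f (fun i => ⟨δ i, hf i⟩)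
  have hOnη : ∀ i, OnS (wqA A k) (η i) := fun i => ⟨fun j => (hη0 i j).ne_zero, hη1 i⟩
  have hηpt : ∀ i j m, aeval (η i j) (A.eqn m) = 0 := by
    intro i j m
    have h2 := hη1 i (finProdFinEquiv (j, m))
    unfold wqA at h2
    rw [ev_rename, Equiv.symm_apply_apply] at h2
    exact h2
  set Pη : ∀ i, Fin k → A.Pt (F i) := fun i j => ⟨η i j, hη0 i j, hηpt i j⟩ with hPη
  have hPηv : ∀ i, (fun j => (Pη i j).1) = η i := fun i => rfl
  obtain ⟨c, hc, hcount⟩ := countW (y := y) (wqA A k) F η hOnη (fun i => by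
    have := hdim (F i) (Pη i) (fun l => hη2 i l)
    exact this)
  obtain ⟨cf, hcf⟩ := hfam K A k
  choose Dn hDn1 hDn2 hDn3 using hcf
  choose Fam hhom hrep using hDn3
  have hIsFam : ∀ v, IsFam (wqA A k) (fun _ => Dn v) (Fam v) := by
    intro v
    refine ⟨hhom v, fun F _ _ u hu => ?_⟩
    obtain ⟨P, r, hr, rfl⟩ := exists_pt A hu
    obtain ⟨C, hC, e, he⟩ := (hrep v F P).2
    refine ⟨C, hC, e, ?_⟩
    rw [ev_smul (hhom v C hC e)]
    exact mul_ne_zero (Finset.prod_ne_zero_iff.mpr (fun j _ => pow_ne_zero _ (hr j))) he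
  have hTg : ∀ (v : Fin k → ℤ) (F : Type) [Field F] [Algebra K F] (P : Fin k → A.Pt F),
      Tg (Fam v) (fun j => (P j).1) (∑ j, v j • P j).1 :=
    fun v F _ _ P => ⟨(∑ j, v j • P j).2.1.ne_zero, (hrep v F P).1⟩
  -- the choice of the constants
  set c0 : ℝ := c * (2 * cf * g * k + 1) ^ y with hc0
  have hc01 : 1 ≤ c0 := by
    have h1 : (1 : ℝ) ≤ c := by exact_mod_cast hc
    have h2 : (1 : ℝ) ≤ (2 * cf * g * k + 1) ^ y := one_le_pow₀ (by
      have : (0 : ℝ) ≤ 2 * cf * g * k := by positivity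
      linarith)
    exact one_le_mul_of_one_le_of_one_le h1 h2
  have hN0 : (0 : ℝ) < N := by exact_mod_cast hN
  have hgR : (0 : ℝ) < g := by exact_mod_cast hg0
  set ε' : ℝ := ε / (N * g) with hε'
  have hε'0 : 0 < ε' := by positivity
  obtain ⟨H, T, hH⟩ := hlat r k g y hk c0 hc01 ε' hε'0
  set good : (Fin k → Fin k → ℤ) → (Fin k → ℕ) → Prop := fun u d =>
    c * (1 + ∑ l, g * d l * ∑ _j : Fin k, Dn (u l)) ^ y < ∏ l, (d l + 1) ^ g with hgood
  have := (BdA_finite k H T good).to_subtype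
  have := Fintype.ofFinite ↥(BdA k H T good)
  -- the generic point
  obtain ⟨Ω, iΩ, iAΩ, iCΩ, P0, hP0z, hP0ind, hP0gen⟩ := A.gen k
  obtain ⟨hz, hz0⟩ := z_inj hk0 A.z0 A.z Ω (fun l => (P0 l).1) hP0z hP0ind
  choose B hB1 hB2 hB3 using fun d : Fin k → ℕ => boxA (K := K) (k := k) A.z0 A.z hz hz0 d
  -- the auxiliary forms
  have hGex : ∀ p : ↥(BdA k H T good), ∃ G : MvPolynomial (Fin k × Fin A.n) K, G ≠ 0 ∧
      G.support ⊆ B p.1.2 ∧ MH (fun l => g * p.1.2 l) G ∧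
      ∀ i, ev G (fun l => (∑ j, p.1.1 l j • Pη i j).1) = 0 := by
    intro p
    refine hcount k A.n (fun l _ => Dn (p.1.1 l)) (fun l => Fam (p.1.1 l))
      (fun l => hIsFam _) (fun i l => (∑ j, p.1.1 l j • Pη i j).1)
      (fun i l => hTg _ _ (Pη i)) (fun l => g * p.1.2 l) (B p.1.2) (hB1 p.1.2) ?_
    rw [hB2]
    exact p.2.2.2.2
  choose G hG0 hGs hGMH hGη using hGex
  -- the global inequality
  choose Cu hCu0 hCu using fun p : ↥(BdA k H T good) => globW (wqA A k) f δ hf (G p)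
    (fun l => g * p.1.2 l) (fun l => Fam (p.1.1 l))
    (locW_G (wqA A k) (wqA_MH A k) f δ hf F η hη3 (fun l _ => Dn (p.1.1 l))
      (fun l => Fam (p.1.1 l)) (fun l => hIsFam _) (G p) (fun l => g * p.1.2 l) (hGMH p)
      (fun i => ⟨fun l => (∑ j, p.1.1 l j • Pη i j).1, fun l => hTg _ _ (Pη i), hGη p i⟩))
  -- forms on `A ^ k`
  have hform : ∀ p : ↥(BdA k H T good), ∃ (Ψ : MvPolynomial (Fin k × Fin A.n) K)
      (τ : Fin k → ℕ), MH τ Ψ ∧ ev Ψ (fun j => (P0 j).1) ≠ 0 ∧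
      ∀ (L : Type) [Field L] [Algebra K L] (P : Fin k → A.Pt L),
        ev Ψ (fun j => (P j).1) ≠ 0 → ev (G p) (fun l => (∑ j, p.1.1 l j • P j).1) ≠ 0 := by
    intro p
    obtain ⟨Q, hQ⟩ := hsolve K A Ω k p.1.1 p.2.1 P0
    choose T0 hT0 e he using fun l => (hrep (p.1.1 l) Ω Q).2
    have hMH := MH_cmp (hGMH p) T0 (fun l _ => Dn (p.1.1 l)) (fun l c => hhom _ _ (hT0 l) c)
    have hval : ∀ (L : Type) [Field L] [Algebra K L] (P : Fin k → A.Pt L),
        ∃ rr : Fin k → L, (∀ l, (fun c => ev (T0 l c) (fun j => (P j).1)) =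
            rr l • (∑ j, p.1.1 l j • P j).1) ∧
          ev (cmp (G p) T0) (fun j => (P j).1) =
          (∏ l, rr l ^ (g * p.1.2 l)) * ev (G p) (fun l => (∑ j, p.1.1 l j • P j).1) := by
      intro L _ _ P
      choose rr hrr using fun l => (hrep (p.1.1 l) L P).1 _ (hT0 l)
      refine ⟨rr, hrr, ?_⟩
      rw [ev_cmp]
      have h3 : (fun (l : Fin k) (c : Fin A.n) => ev (T0 l c) (fun j => (P j).1)) =
          fun l => rr l • (∑ j, p.1.1 l j • P j).1 := by
        funext l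
        exact hrr l
      rw [h3, ev_smul (hGMH p)]
    refine ⟨cmp (G p) T0, _, hMH, ?_, ?_⟩
    · refine hP0gen _ _ hMH ⟨Ω, iΩ, iAΩ, Q, ?_⟩
      obtain ⟨rr, hrr, hev⟩ := hval Ω Q
      rw [hev]
      refine mul_ne_zero (Finset.prod_ne_zero_iff.mpr (fun l _ => pow_ne_zero _ ?_)) ?_
      · intro h0
        apply he l
        have := congrFun (hrr l) (e l)
        rw [h0, zero_smul] at this
        exact this
      · have h1 : (fun l => (∑ j, p.1.1 l j • Q j).1) = fun l => (P0 l).1 := by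
          funext l
          rw [hQ l]
        rw [h1]
        exact hB3 p.1.2 (G p) (hG0 p) (hGs p) Ω (fun l => (P0 l).1) hP0z hP0ind
    · intro L _ _ P hP hcon
      obtain ⟨rr, hrr, hev⟩ := hval L P
      rw [hev, hcon, mul_zero] at hP
      exact hP rfl
  choose Ψ τ hΨ1 hΨ2 hΨ3 using hform
  have hevprod : ∀ (L : Type) [Field L] [Algebra K L] (P : Fin k → A.Pt L),
      ev (∏ p, Ψ p) (fun j => (P j).1) = ∏ p, ev (Ψ p) (fun j => (P j).1) := by
    intro L _ _ P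
    simp only [ev, map_prod]
  refine ⟨∏ p, Ψ p, _, MH_prod Finset.univ τ Ψ (fun p _ => hΨ1 p),
    ⟨Ω, iΩ, iAΩ, P0, ?_⟩, ?_⟩
  · rw [hevprod]
    exact Finset.prod_ne_zero_iff.mpr (fun p _ => hΨ2 p)
  -- the constant
  refine ⟨ε * (1 + k * Ch) + ∑ p, (Cu p + N * ∑ l, ((g * p.1.2 l : ℕ) : ℝ) * Ch),
    fun L _ _ _ P hrk hP => ?_⟩
  rw [hevprod, Finset.prod_ne_zero_iff] at hP
  obtain ⟨q, hq2, hq3, hqh⟩ := hcan L
  have hfg : AddGroup.FG (AddSubgroup.closure (Set.range P)) := by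
    rw [AddGroup.fg_iff_addSubgroup_fg]
    exact ⟨Finset.univ.image P, by rw [Finset.coe_image, Finset.coe_univ, Set.image_univ]⟩
  obtain ⟨Nm, hNm⟩ := gram_decomp P hfg hrk q hq2 hq3
  set DL : ℝ := (Module.finrank ℚ L : ℝ) with hDL
  have hDL0 : 0 < DL := by
    have : 0 < Module.finrank ℚ L := Module.finrank_pos
    rw [hDL]
    exact_mod_cast this
  set M2 : ℝ := 1 + (∑ j, q (P j)) / DL with hM2
  have hM21 : 1 ≤ M2 := by
    have : 0 ≤ (∑ j, q (P j)) / DL :=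
      div_nonneg (Finset.sum_nonneg (fun _ _ => hq2 _)) hDL0.le
    linarith
  have hsq : (√DL) ^ 2 = DL := Real.sq_sqrt hDL0.le
  have hcol : ∀ j, q (P j) = ∑ l, Nm l j ^ 2 := by
    intro j
    have h1 := hNm (Pi.single j 1)
    have h2 : ∑ i, (Pi.single j 1 : Fin k → ℤ) i • P i = P j := by
      rw [Finset.sum_eq_single j]
      · simp
      · intro i _ hi
        simp [hi]
      · simp
    rw [h2] at h1
    rw [h1]
    refine Finset.sum_congr rfl (fun l _ => ?_)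
    congr 1
    rw [Finset.sum_eq_single j]
    · simp
    · intro i _ hi
      simp [hi]
    · simp
  obtain ⟨u, hu1, hu2, d, hd1, hd2, hd3⟩ := hH (fun l j => Nm l j / √DL) (√M2)
    (by rw [Real.one_le_sqrt]; exact hM21) (by
      intro l j
      rw [← Real.sqrt_sq_eq_abs]
      apply Real.sqrt_le_sqrt
      rw [div_pow, hsq]
      have h1 : Nm l j ^ 2 ≤ ∑ l, Nm l j ^ 2 :=
        Finset.single_le_sum (f := fun l => Nm l j ^ 2) (fun _ _ => sq_nonneg _)
          (Finset.mem_univ l)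
      rw [← hcol j] at h1
      have h2 : q (P j) ≤ ∑ j, q (P j) :=
        Finset.single_le_sum (f := fun j => q (P j)) (fun _ _ => hq2 _) (Finset.mem_univ j)
      have h3 : Nm l j ^ 2 / DL ≤ (∑ j, q (P j)) / DL :=
        div_le_div_of_nonneg_right (h1.trans h2) hDL0.le
      linarith)
  rw [Real.sq_sqrt (by linarith)] at hd3
  -- norms of the vectors
  have hnorm1 : ∀ j, 1 ≤ ∑ t, (u j t : ℝ) ^ 2 := by
    intro j
    obtain ⟨t0, ht0⟩ := Function.ne_iff.mp (hu1.ne_zero j)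
    have h1 : (u j t0 : ℝ) ^ 2 ≤ ∑ t, (u j t : ℝ) ^ 2 :=
      Finset.single_le_sum (f := fun t => (u j t : ℝ) ^ 2) (fun _ _ => sq_nonneg _)
        (Finset.mem_univ t0)
    have h2 : (1 : ℤ) ≤ (u j t0) ^ 2 := by
      have h3 : u j t0 ≠ 0 := ht0
      have : 0 < (u j t0) ^ 2 := by positivity
      omega
    have h4 : (1 : ℝ) ≤ (u j t0 : ℝ) ^ 2 := by exact_mod_cast h2
    linarith
  have hDn : ∀ j, (Dn (u j) : ℝ) ≤ 2 * cf * ∑ t, (u j t : ℝ) ^ 2 := by
    intro j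
    have h1 : (Dn (u j) : ℝ) ≤ cf * (1 + ∑ t, (u j t : ℝ) ^ 2) := by exact_mod_cast hDn2 (u j)
    have h2 := hnorm1 j
    have h3 : (0 : ℝ) ≤ cf := Nat.cast_nonneg _
    nlinarith
  have hgd : good u d := by
    have h1 : (c : ℝ) * (1 + ∑ l, (g : ℝ) * d l * ((k : ℝ) * Dn (u l))) ^ y <
        ∏ l, ((d l : ℝ) + 1) ^ g := by
      refine lt_of_le_of_lt ?_ hd2
      rw [hc0, mul_assoc, ← mul_pow]
      refine mul_le_mul_of_nonneg_left ?_ (Nat.cast_nonneg _)
      refine pow_le_pow_left₀ ?_ ?_ y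
      · exact add_nonneg zero_le_one (Finset.sum_nonneg (fun l _ => by positivity))
      · have h2 : ∑ l, (g : ℝ) * d l * ((k : ℝ) * Dn (u l)) ≤
            2 * cf * g * k * ∑ l, (d l : ℝ) * ∑ t, (u l t : ℝ) ^ 2 := by
          rw [Finset.mul_sum]
          refine Finset.sum_le_sum (fun l _ => ?_)
          have := mul_le_mul_of_nonneg_left (hDn l) (by positivity : (0 : ℝ) ≤ g * d l * k)
          calc (g : ℝ) * d l * ((k : ℝ) * Dn (u l)) = g * d l * k * Dn (u l) := by ring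
            _ ≤ g * d l * k * (2 * cf * ∑ t, (u l t : ℝ) ^ 2) := this
            _ = _ := by ring
        have h3 : 0 ≤ ∑ l, (d l : ℝ) * ∑ t, (u l t : ℝ) ^ 2 :=
          Finset.sum_nonneg (fun l _ => mul_nonneg (Nat.cast_nonneg _)
            (Finset.sum_nonneg (fun t _ => sq_nonneg _)))
        have h4 : (0 : ℝ) ≤ 2 * cf * g * k := by positivity
        nlinarith
    have h2 : ((c * (1 + ∑ l, g * d l * ∑ _j : Fin k, Dn (u l)) ^ y : ℕ) : ℝ) <
        ((∏ l, (d l + 1) ^ g : ℕ) : ℝ) := by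
      push_cast
      simp only [Finset.sum_const, Finset.card_univ, Fintype.card_fin, nsmul_eq_mul]
      exact h1
    exact_mod_cast h2
  set U : ↥(BdA k H T good) := ⟨(u, d), hu1, hu2, hd1, hgd⟩ with hU
  obtain ⟨hne, hFS, hbound⟩ := hCu U L (fun j => (P j).1) (onS_pt A P)
    (fun l => (∑ j, u l j • P j).1) (fun l => hTg (u l) L P)
    (hΨ3 U L P (hP U (Finset.mem_univ _)))
  refine ⟨hne, hFS, hbound.trans ?_⟩
  have hS : ∀ l, q (∑ j, u l j • P j) =
      DL * ∑ i, (∑ j, (u l j : ℝ) * (Nm i j / √DL)) ^ 2 := by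
    intro l
    rw [hNm, Finset.mul_sum]
    refine Finset.sum_congr rfl (fun i _ => ?_)
    have h1 : ∑ j, (u l j : ℝ) * (Nm i j / √DL) = (∑ j, (u l j : ℝ) * Nm i j) / √DL := by
      rw [Finset.sum_div]
      exact Finset.sum_congr rfl (fun j _ => by ring)
    rw [h1, div_pow, hsq, mul_div_cancel₀ _ hDL0.ne']
  have hupp : ∀ R : A.Pt L, logHeight R.1 ≤ q R + Ch * DL := fun R => by
    have := (abs_le.mp (hqh R)).1
    linarith
  have hlow : ∀ R : A.Pt L, q R ≤ logHeight R.1 + Ch * DL := fun R => by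
    have := (abs_le.mp (hqh R)).2
    linarith
  have hterm : ∀ l, ((g * d l : ℕ) : ℝ) * logHeight (∑ j, u l j • P j).1 ≤
      g * DL * ((d l : ℝ) * ∑ i, (∑ j, (u l j : ℝ) * (Nm i j / √DL)) ^ 2) +
        ((g * d l : ℕ) : ℝ) * Ch * DL := by
    intro l
    have h1 := hupp (∑ j, u l j • P j)
    rw [hS l] at h1
    have h2 := mul_le_mul_of_nonneg_left h1 (Nat.cast_nonneg (α := ℝ) (g * d l))
    push_cast at h2 ⊢
    linarith
  have hsumle : ∑ l, ((g * d l : ℕ) : ℝ) * logHeight (∑ j, u l j • P j).1 ≤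
      g * DL * (ε' * M2) + (∑ l, ((g * d l : ℕ) : ℝ) * Ch) * DL := by
    refine (Finset.sum_le_sum (fun l _ => hterm l)).trans ?_
    rw [Finset.sum_add_distrib, ← Finset.mul_sum, ← Finset.sum_mul]
    have := mul_le_mul_of_nonneg_left hd3 (by positivity : (0 : ℝ) ≤ g * DL)
    linarith
  have hmainle : (N : ℝ) * ∑ l, ((g * d l : ℕ) : ℝ) * logHeight (∑ j, u l j • P j).1 ≤
      (ε * M2 + N * ∑ l, ((g * d l : ℕ) : ℝ) * Ch) * DL := by
    have h1 := mul_le_mul_of_nonneg_left hsumle hN0.le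
    refine h1.trans (le_of_eq ?_)
    have h2 : (N : ℝ) * (g * ε') = ε := by
      rw [hε']
      field_simp
    calc (N : ℝ) * (g * DL * (ε' * M2) + (∑ l, ((g * d l : ℕ) : ℝ) * Ch) * DL) =
        (N * (g * ε')) * M2 * DL + (N * ∑ l, ((g * d l : ℕ) : ℝ) * Ch) * DL := by ring
      _ = _ := by rw [h2]; ring
  have hM2D : M2 * DL ≤ (1 + k * Ch) * DL + ∑ j, logHeight (P j).1 := by
    have h1 : ∑ j, q (P j) ≤ ∑ j, (logHeight (P j).1 + Ch * DL) :=
      Finset.sum_le_sum (fun j _ => hlow (P j))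
    rw [Finset.sum_add_distrib, Finset.sum_const, Finset.card_univ, Fintype.card_fin,
      nsmul_eq_mul] at h1
    have h2 : M2 * DL = DL + ∑ j, q (P j) := by
      rw [hM2]
      field_simp
    rw [h2]
    linarith
  have hconst : Cu U + N * ∑ l, ((g * d l : ℕ) : ℝ) * Ch ≤
      ∑ p, (Cu p + N * ∑ l, ((g * p.1.2 l : ℕ) : ℝ) * Ch) := by
    refine Finset.single_le_sum (f := fun p => Cu p + N * ∑ l, ((g * p.1.2 l : ℕ) : ℝ) * Ch)
      (fun p _ => ?_) (Finset.mem_univ U)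
    have h1 : 0 ≤ ∑ l, ((g * p.1.2 l : ℕ) : ℝ) * Ch :=
      Finset.sum_nonneg (fun _ _ => mul_nonneg (Nat.cast_nonneg _) hCh)
    have h2 := hCu0 p
    positivity
  have h6 := mul_le_mul_of_nonneg_left hM2D hε.le
  have h7 := mul_le_mul_of_nonneg_right hconst hDL0.le
  calc (N : ℝ) * ∑ l, ((g * d l : ℕ) : ℝ) * logHeight (∑ j, u l j • P j).1 + Cu U * DL ≤
      (ε * M2 + N * ∑ l, ((g * d l : ℕ) : ℝ) * Ch) * DL + Cu U * DL := by linarith
    _ = ε * (M2 * DL) + (Cu U + N * ∑ l, ((g * d l : ℕ) : ℝ) * Ch) * DL := by ring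
    _ ≤ ε * ((1 + k * Ch) * DL + ∑ j, logHeight (P j).1) +
        (∑ p, (Cu p + N * ∑ l, ((g * p.1.2 l : ℕ) : ℝ) * Ch)) * DL := by linarith
    _ = _ := by ring

end Pool.Agent.TH954.W
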