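import Pool.Agent.TH954.W.Basic

/-!
# The multiprojective Nullstellensatz
-/

set_option autoImplicit false

open MvPolynomial

namespace Pool.Agent.TH954.W

/-- every nonzero vector has a normalised multiple -/
lemma exists_normed {F : Type} [Field F] {n : ℕ} {v : Fin n → F} (hv : v ≠ 0) :
    ∃ (s : F) (v' : Fin n → F), s ≠ 0 ∧ Normed v' ∧ v = s • v' := by
  classical
  obtain ⟨i, hi⟩ := Function.ne_iff.mp hv
  have hne : (Finset.univ.filter (fun i => v i ≠ 0)).Nonempty := ⟨i, by simpa using hi⟩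
  set i0 := (Finset.univ.filter (fun i => v i ≠ 0)).min' hne with hi0
  have h1 : v i0 ≠ 0 := by
    have := Finset.min'_mem _ hne
    exact (Finset.mem_filter.mp this).2
  refine ⟨v i0, fun j => (v i0)⁻¹ * v j, h1, ⟨i0, inv_mul_cancel₀ h1, fun j hj => ?_⟩, ?_⟩
  · have h2 : v j = 0 := by
      by_contra hcon
      have h3 : i0 ≤ j := Finset.min'_le _ j (Finset.mem_filter.mpr ⟨Finset.mem_univ _, hcon⟩)
      exact absurd hj (not_lt.mpr h3)
    simp only [h2, mul_zero]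
  · funext j
    rw [Pi.smul_apply, smul_eq_mul, mul_inv_cancel_left₀ h1]

lemma Normed.ne_zero {F : Type} [Field F] {n : ℕ} {v : Fin n → F} (hv : Normed v) : v ≠ 0 := by
  obtain ⟨i, hi, -⟩ := hv
  intro h
  rw [h] at hi
  exact zero_ne_one hi

theorem nullW (K : Type) [Field K] {k n s e : ℕ}
    (wq : Fin e → MvPolynomial (Fin k × Fin n) K) (hw : ∀ i, ∃ δ, MH δ (wq i))
    (f : Fin s → MvPolynomial (Fin k × Fin n) K) (hf : ∀ i, ∃ δ, MH δ (f i)) :
    ∃ N : ℕ, 0 < N ∧ ∃ (t : ℕ) (F : Fin t → Type) (_ : ∀ i, Field (F i))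
      (_ : ∀ i, Algebra K (F i)) (η : ∀ i, Fin k → Fin n → F i),
      (∀ i j, Normed (η i j)) ∧ (∀ i l, ev (wq l) (η i) = 0) ∧ (∀ i l, ev (f l) (η i) = 0) ∧
      ∀ S : MvPolynomial (Fin k × Fin n) K, (∃ σ, MH σ S) → (∀ i, ev S (η i) = 0) →
        ∀ c : Fin k → Fin n,
          (S * ∏ j, X (j, c j)) ^ N ∈ Ideal.span (Set.range f ∪ Set.range wq) := by
  classical
  set I : Ideal (MvPolynomial (Fin k × Fin n) K) :=
    Ideal.span (Set.range f ∪ Set.range wq) with hI
  obtain ⟨n0, hn0⟩ := Ideal.exists_radical_pow_le_of_fg I (IsNoetherian.noetherian _)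
  refine ⟨n0 + 1, Nat.succ_pos _, ?_⟩
  have hfinall : (I.minimalPrimes).Finite :=
    Ideal.finite_minimalPrimes_of_isNoetherianRing (MvPolynomial (Fin k × Fin n) K) I
  set 𝓟 : Set (Ideal (MvPolynomial (Fin k × Fin n) K)) := {p | p ∈ I.minimalPrimes ∧
    ∀ j, ∃ c : Fin n, (X (j, c) : MvPolynomial (Fin k × Fin n) K) ∉ p} with h𝓟
  have hfin : 𝓟.Finite := hfinall.subset (fun p hp => hp.1)
  have := hfin.to_subtype
  obtain ⟨t, ⟨e'⟩⟩ := Finite.exists_equiv_fin 𝓟
  have hprime : ∀ i : Fin t, (e'.symm i).val.IsPrime := fun i => (e'.symm i).prop.1.1.1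
  -- the point attached to a relevant prime
  have key : ∀ i : Fin t, ∃ (F : Type) (_ : Field F) (_ : Algebra K F)
      (φ : MvPolynomial (Fin k × Fin n) K →ₐ[K] F) (η : Fin k → Fin n → F) (r : Fin k → F),
      (∀ g : MvPolynomial (Fin k × Fin n) K, φ g = 0 ↔ g ∈ (e'.symm i).val) ∧ (∀ j, r j ≠ 0) ∧
      (∀ j, Normed (η j)) ∧ ∀ j c, φ (X (j, c)) = r j * η j c := by
    intro i
    have := hprime i
    have : IsDomain (MvPolynomial (Fin k × Fin n) K ⧸ (e'.symm i).val) :=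
      Ideal.Quotient.isDomain _
    let F := FractionRing (MvPolynomial (Fin k × Fin n) K ⧸ (e'.symm i).val)
    let φ : MvPolynomial (Fin k × Fin n) K →ₐ[K] F :=
      (IsScalarTower.toAlgHom K (MvPolynomial (Fin k × Fin n) K ⧸ (e'.symm i).val) F).comp
        (Ideal.Quotient.mkₐ K (e'.symm i).val)
    have hφ : ∀ g : MvPolynomial (Fin k × Fin n) K, φ g = 0 ↔ g ∈ (e'.symm i).val := by
      intro g
      change algebraMap (MvPolynomial (Fin k × Fin n) K ⧸ (e'.symm i).val) F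
        (Ideal.Quotient.mk _ g) = 0 ↔ _
      rw [FaithfulSMul.algebraMap_eq_zero_iff, Ideal.Quotient.eq_zero_iff_mem]
    have hpt : ∀ j, ∃ (s : F) (v : Fin n → F), s ≠ 0 ∧ Normed v ∧
        (fun c => φ (X (j, c))) = s • v := by
      intro j
      apply exists_normed
      obtain ⟨c, hc⟩ := (e'.symm i).prop.2 j
      intro h0
      exact hc ((hφ _).mp (congrFun h0 c))
    choose r η hr hη hηr using hpt
    exact ⟨F, inferInstance, inferInstance, φ, η, r, hφ, hr, hη, fun j c => congrFun (hηr j) c⟩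
  choose F hF1 hF2 φ η r hφ hr hη hX using key
  have hev : ∀ (i : Fin t) (g : MvPolynomial (Fin k × Fin n) K) (σ : Fin k → ℕ), MH σ g →
      φ i g = (∏ j, r i j ^ σ j) * ev g (η i) := by
    intro i g σ hg
    rw [← ev_smul hg (r i) (η i), ev]
    have : φ i = aeval (fun p : Fin k × Fin n => (r i p.1 • η i p.1) p.2) := by
      apply algHom_ext
      rintro ⟨j, c⟩
      rw [aeval_X, hX]
      rfl
    rw [this]
  have hprod : ∀ (i : Fin t) (σ : Fin k → ℕ), ∏ j, r i j ^ σ j ≠ 0 := fun i σ =>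
    Finset.prod_ne_zero_iff.mpr (fun j _ => pow_ne_zero _ (hr i j))
  refine ⟨t, F, hF1, hF2, η, hη, ?_, ?_, ?_⟩
  · intro i l
    obtain ⟨δ, hδ⟩ := hw l
    have h1 : wq l ∈ (e'.symm i).val :=
      (e'.symm i).prop.1.1.2 (Ideal.subset_span (Or.inr ⟨l, rfl⟩))
    have h2 := (hφ i _).mpr h1
    rw [hev i _ δ hδ] at h2
    exact (mul_eq_zero.mp h2).resolve_left (hprod i δ)
  · intro i l
    obtain ⟨δ, hδ⟩ := hf l
    have h1 : f l ∈ (e'.symm i).val :=
      (e'.symm i).prop.1.1.2 (Ideal.subset_span (Or.inl ⟨l, rfl⟩))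
    have h2 := (hφ i _).mpr h1
    rw [hev i _ δ hδ] at h2
    exact (mul_eq_zero.mp h2).resolve_left (hprod i δ)
  · rintro S ⟨σ, hσ⟩ hS c
    have hrad : S * ∏ j, X (j, c j) ∈ I.radical := by
      rw [← Ideal.sInf_minimalPrimes, Ideal.mem_sInf]
      intro p hp
      have : p.IsPrime := hp.1.1
      by_cases hrel : ∀ j, ∃ c : Fin n, (X (j, c) : MvPolynomial (Fin k × Fin n) K) ∉ p
      · have hmem : p ∈ 𝓟 := ⟨hp, hrel⟩
        set i := e' ⟨p, hmem⟩ with hi
        have hpi : (e'.symm i).val = p := by rw [hi, Equiv.symm_apply_apply]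
        have h1 : φ i S = 0 := by rw [hev i S σ hσ, hS i, mul_zero]
        have h2 := (hφ i S).mp h1
        rw [hpi] at h2
        exact Ideal.mul_mem_right _ _ h2
      · push Not at hrel
        obtain ⟨j, hj⟩ := hrel
        refine Ideal.mul_mem_left _ _ ?_
        rw [← Finset.mul_prod_erase Finset.univ _ (Finset.mem_univ j)]
        exact Ideal.mul_mem_right _ _ (hj (c j))
    have h1 : (S * ∏ j, X (j, c j)) ^ (n0 + 1) ∈ I.radical ^ (n0 + 1) :=
      Ideal.pow_mem_pow hrad _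
    exact hn0 (Ideal.pow_le_pow_right (Nat.le_succ n0) h1)

end Pool.Agent.TH954.W
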