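import Pool.Agent.TH954.W.Defs

/-!
# Linear systems in the group of points over an algebraically closed field
-/

set_option autoImplicit false

namespace Pool.Agent.TH954.W

/-- integral linear systems with nonzero determinant in a divisible group -/
theorem solve_group {G : Type} [AddCommGroup G] (hdiv : ∀ (P : G) (m : ℕ), 0 < m →
    ∃ Q : G, m • Q = P) (k : ℕ) (u : Fin k → Fin k → ℤ) (hu : LinearIndependent ℤ u)
    (P : Fin k → G) : ∃ Q : Fin k → G, ∀ l, ∑ j, u l j • Q j = P l := by
  classical
  set U : Matrix (Fin k) (Fin k) ℤ := Matrix.of u with hU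
  have hdet : U.det ≠ 0 := by
    intro h
    obtain ⟨v, hv0, hv⟩ := Matrix.exists_vecMul_eq_zero_iff.2 h
    rw [Fintype.linearIndependent_iff] at hu
    refine hv0 (funext fun i => hu v ?_ i)
    ext j
    have := congrFun hv j
    simp only [Matrix.vecMul, dotProduct, Pi.zero_apply] at this
    simpa [Finset.sum_apply, hU] using this
  have hd : ∀ R : G, ∃ R' : G, U.det • R' = R := by
    intro R
    obtain ⟨Q, hQ⟩ := hdiv R U.det.natAbs (Int.natAbs_pos.2 hdet)
    rcases Int.natAbs_eq U.det with h | h
    · refine ⟨Q, ?_⟩
      rw [h, natCast_zsmul]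
      exact hQ
    · refine ⟨-Q, ?_⟩
      rw [h, neg_smul, smul_neg, neg_neg, natCast_zsmul]
      exact hQ
  choose R hR using fun l => hd (P l)
  refine ⟨fun j => ∑ l, U.adjugate j l • R l, fun l => ?_⟩
  have h1 : ∀ l', ∑ j, u l j * U.adjugate j l' = if l = l' then U.det else 0 := by
    intro l'
    have h2 := congrFun (congrFun (Matrix.mul_adjugate U) l) l'
    rw [Matrix.mul_apply, Matrix.smul_apply, Matrix.one_apply] at h2
    have h3 : ∑ j, u l j * U.adjugate j l' = ∑ j, U l j * U.adjugate j l' := rfl
    rw [h3, h2]
    split_ifs <;> simp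
  calc ∑ j, u l j • ∑ l', U.adjugate j l' • R l'
      = ∑ j, ∑ l', (u l j * U.adjugate j l') • R l' := by
        refine Finset.sum_congr rfl fun j _ => ?_
        rw [Finset.smul_sum]
        refine Finset.sum_congr rfl fun l' _ => ?_
        rw [mul_smul]
    _ = ∑ l', (∑ j, u l j * U.adjugate j l') • R l' := by
        rw [Finset.sum_comm]
        refine Finset.sum_congr rfl fun l' _ => ?_
        rw [Finset.sum_smul]
    _ = P l := by
        simp only [h1]
        rw [Finset.sum_eq_single l]
        · rw [if_pos rfl]
          exact hR l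
        · intro l' _ hl'
          rw [if_neg (Ne.symm hl'), zero_smul]
        · intro h
          exact absurd (Finset.mem_univ l) h

theorem solve : T_solve := by
  intro K _ A Ω _ _ _ k u hu P
  exact solve_group (G := A.Pt Ω) (fun P m hm => A.div Ω P m hm) k u hu P

end Pool.Agent.TH954.W
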